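import Pool.Agent.Helper589_TypeII.Inv

/-!
Residues modulo a multiple of four: parity, the involution, two-fold automorphisms.
-/

namespace Pool.Agent.Helper589Four

open Pool.Agent.Helper589TypeII

variable {n : ℕ} [NeZero n] [Fact (4 ∣ n)]

lemma two_dvd : 2 ∣ n := dvd_trans (by norm_num) (Fact.out : 4 ∣ n)

/-- reduction modulo 2 -/
def par : ZMod n →+* ZMod 2 := ZMod.castHom two_dvd (ZMod 2)

/-- the residue n / 2 -/
def io : ZMod n := ((n / 2 : ℕ) : ZMod n)

lemma z2_cases (a : ZMod 2) : a = 0 ∨ a = 1 := by revert a; decide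

lemma z2_add_self (a : ZMod 2) : a + a = 0 := by revert a; decide

lemma z2_ext {a b : ZMod 2} (h : a = 1 ↔ b = 1) : a = b := by revert a b; decide

lemma z2_eq {a b : ZMod 2} (h : a + b = 0) : a = b := by revert a b; decide

lemma z2_ne {a b : ZMod 2} (h : a ≠ b) : a = b + 1 := by revert a b; decide

lemma io_add_io : (io : ZMod n) + io = 0 := by
  obtain ⟨k, hk⟩ := two_dvd (n := n)
  rw [io, ← Nat.cast_add]
  have : n / 2 + n / 2 = n := by omega
  rw [this, ZMod.natCast_self]

lemma two_mul_io : 2 * (io : ZMod n) = 0 := by rw [two_mul, io_add_io]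

lemma neg_io : -(io : ZMod n) = io := neg_eq_of_add_eq_zero_left io_add_io

lemma add_io_io (x : ZMod n) : x + io + io = x := by rw [add_assoc, io_add_io, add_zero]

lemma sub_io (x : ZMod n) : x - io = x + io := by rw [sub_eq_add_neg, neg_io]

lemma n_pos : 0 < n := Nat.pos_of_ne_zero (NeZero.ne n)

lemma io_ne : (io : ZMod n) ≠ 0 := by
  obtain ⟨k, hk⟩ := two_dvd (n := n)
  have hp := n_pos (n := n)
  rw [io, Ne, ZMod.natCast_eq_zero_iff]
  intro h
  have := Nat.le_of_dvd (by omega) h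
  omega

lemma par_natCast (k : ℕ) : par ((k : ℕ) : ZMod n) = (k : ZMod 2) := map_natCast _ _

lemma par_io : par (io : ZMod n) = 0 := by
  obtain ⟨k, hk⟩ := (Fact.out : 4 ∣ n)
  rw [io, par_natCast, ZMod.natCast_eq_zero_iff]
  exact ⟨k, by omega⟩

lemma par_two : par (2 : ZMod n) = 0 := by
  rw [map_ofNat]; decide

lemma par_two_mul (x : ZMod n) : par (2 * x) = 0 := by rw [map_mul, par_two, zero_mul]

lemma par_neg (x : ZMod n) : par (-x) = par x := by
  rw [map_neg]
  generalize par x = a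
  revert a; decide

lemma par_sub (x y : ZMod n) : par (x - y) = par x + par y := by
  rw [sub_eq_add_neg, map_add, par_neg]

lemma two_mul_zero {x : ZMod n} (h : 2 * x = 0) : x = 0 ∨ x = io := by
  have hp := n_pos (n := n)
  obtain ⟨k, hk⟩ := two_dvd (n := n)
  have h1 : ((2 * x.val : ℕ) : ZMod n) = 0 := by
    push_cast
    rw [ZMod.natCast_zmod_val]; exact h
  rw [ZMod.natCast_eq_zero_iff] at h1
  obtain ⟨c, hc⟩ := h1
  have hlt := ZMod.val_lt x
  have hc2 : c = 0 ∨ c = 1 := by
    by_contra hcon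
    have : 2 ≤ c := by omega
    have : n * 2 ≤ n * c := Nat.mul_le_mul_left n this
    omega
  rcases hc2 with rfl | rfl
  · left
    have : x.val = 0 := by omega
    exact (ZMod.val_eq_zero x).1 this
  · right
    have : x.val = n / 2 := by omega
    rw [io, ← this, ZMod.natCast_zmod_val]

lemma two_mul_eq {x y : ZMod n} (h : 2 * x = 2 * y) : x = y ∨ x = y + io := by
  have h1 : 2 * (x - y) = 0 := by rw [mul_sub, h, sub_self]
  rcases two_mul_zero h1 with h2 | h2
  · left; exact sub_eq_zero.1 h2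
  · right; rw [← h2]; ring

lemma exists_half {x : ZMod n} (h : par x = 0) : ∃ y, x = 2 * y := by
  have h1 : ((x.val : ℕ) : ZMod 2) = 0 := by
    rw [← par_natCast (n := n), ZMod.natCast_zmod_val]; exact h
  rw [ZMod.natCast_eq_zero_iff] at h1
  obtain ⟨k, hk⟩ := h1
  refine ⟨(k : ZMod n), ?_⟩
  rw [← ZMod.natCast_zmod_val x, hk]
  push_cast; ring

lemma exists_quarter : ∃ q : ZMod n, 2 * q = io := by
  obtain ⟨k, hk⟩ := (Fact.out : 4 ∣ n)
  refine ⟨(k : ZMod n), ?_⟩
  rw [io]
  have : n / 2 = 2 * k := by omega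
  rw [this]; push_cast; ring

lemma mul_mem' (W : AddSubgroup (ZMod n)) {x : ZMod n} (hx : x ∈ W) (c : ZMod n) : c * x ∈ W := by
  rw [← ZMod.natCast_zmod_val c, ← nsmul_eq_mul]
  exact W.nsmul_mem hx _

/-- A subgroup containing an odd element contains all halves of its elements. -/
lemma half_mem {W : AddSubgroup (ZMod n)} {ω : ZMod n} (hω : ω ∈ W) (hp : par ω = 1) {x : ZMod n}
    (hx : 2 * x ∈ W) : x ∈ W := by
  obtain ⟨k, hk⟩ := exists_half (x := ω - 1) (by rw [par_sub, hp, map_one]; decide)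
  have h1 := mul_mem' W hω x
  have h2 := mul_mem' W hx k
  have h3 := W.sub_mem h1 h2
  convert h3 using 1
  linear_combination (-x) * hk

/-- two-fold automorphisms of f -/
def TF (f : ZMod n → ZMod 2) (α β : Equiv.Perm (ZMod n)) : Prop :=
  ∀ u v, f (β v - α u) = f (v - u)

/-- standing assumptions on f -/
structure Hyp (f : ZMod n → ZMod 2) : Prop where
  sym : ∀ x, f (-x) = f x
  tw : ∀ t, (∀ x, f (x + t) = f x) → t = 0
  two : ∀ α β : Equiv.Perm (ZMod n), TF f α β → (∀ x, par (α x) = par x) →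
    (∀ x, par (β x) = par x) → α = β

variable {f : ZMod n → ZMod 2}

namespace TF

omit [Fact (4 ∣ n)] in
lemma refl : TF f 1 1 := fun _ _ => rfl

variable {α β γ δ : Equiv.Perm (ZMod n)}

omit [Fact (4 ∣ n)] in
lemma mul (h : TF f α β) (h' : TF f γ δ) : TF f (α * γ) (β * δ) := by
  intro u v
  rw [Equiv.Perm.mul_apply, Equiv.Perm.mul_apply, h, h']

omit [Fact (4 ∣ n)] in
lemma inv (h : TF f α β) : TF f α⁻¹ β⁻¹ := by
  intro u v
  have h1 := h (α⁻¹ u) (β⁻¹ v)
  have h2 : α (α⁻¹ u) = u := by simp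
  have h3 : β (β⁻¹ v) = v := by simp
  rw [h2, h3] at h1
  exact h1.symm

lemma swap (H : Hyp f) (h : TF f α β) : TF f β α := by
  intro u v
  rw [← H.sym, neg_sub, h, ← H.sym, neg_sub]

omit [Fact (4 ∣ n)] in
lemma tr (c : ZMod n) : TF f (Equiv.addLeft c) (Equiv.addLeft c) := by
  intro u v
  rw [Equiv.coe_addLeft, add_sub_add_left_eq_sub]

omit [Fact (4 ∣ n)] in
lemma conj (h : TF f α β) (h' : TF f γ δ) : TF f (α * γ * α⁻¹) (β * δ * β⁻¹) :=
  (h.mul h').mul h.inv

end TF

/-- Two-fold automorphisms moving points by even amounts are trivial. -/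
lemma Hyp.two' (H : Hyp f) {α β : Equiv.Perm (ZMod n)} (h : TF f α β)
    (ha : ∀ x, par (α x - x) = 0) (hb : ∀ x, par (β x - x) = 0) : α = β := by
  apply H.two α β h
  · intro x
    have := ha x
    rw [par_sub] at this
    exact z2_eq this
  · intro x
    have := hb x
    rw [par_sub] at this
    exact z2_eq this

/-- permutations preserving T -/
def presG {A : Type} [AddCommGroup A] (T : Set A) : Subgroup (Equiv.Perm A) where
  carrier := {g | Pres g T}
  one_mem' := fun x y => Iff.rfl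
  mul_mem' := by
    intro g h hg hh x y
    rw [hh x y, hg (h x) (h y)]; rfl
  inv_mem' := by
    intro g hg x y
    have h1 := hg (g⁻¹ x) (g⁻¹ y)
    have h2 : g (g⁻¹ x) = x := by simp
    have h3 : g (g⁻¹ y) = y := by simp
    rw [h2, h3] at h1
    exact h1.symm

lemma pres_closure {A : Type} [AddCommGroup A] {T : Set A} {g : Equiv.Perm A} (h : Pres g T) :
    Pres g (AddSubgroup.closure T : Set A) := by
  have h1 : IsInv (presG T) T := fun g hg => hg
  exact h1.closure g h

lemma pres_inv {A : Type} [AddCommGroup A] {T : Set A} {g : Equiv.Perm A} (h : Pres g T) :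
    Pres g⁻¹ T := (presG T).inv_mem (x := g) h

end Pool.Agent.Helper589Four
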