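import Pool.Agent.Helper589_Four.F0

/-!
The differences where f is not periodic with respect to the involution.
-/

namespace Pool.Agent.Helper589Four

open Pool.Agent.Helper589TypeII

variable {n : ℕ} [NeZero n] [Fact (4 ∣ n)] {f : ZMod n → ZMod 2}

/-- the set where f differs from its shift by n / 2 -/
def EE (f : ZMod n → ZMod 2) : Set (ZMod n) := {e | f (e + io) ≠ f e}

/-- doubles of elements of E -/
def FF (f : ZMod n → ZMod 2) : Set (ZMod n) := {z | ∃ e ∈ EE f, z = 2 * e}

lemma EE_io {e : ZMod n} : e + io ∈ EE f ↔ e ∈ EE f := by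
  change f (e + io + io) ≠ f (e + io) ↔ f (e + io) ≠ f e
  rw [add_io_io]
  exact ne_comm

open Classical in
/-- common neighbours -/
noncomputable def cnn (f : ZMod n → ZMod 2) (u v : ZMod n) : Finset (ZMod n) :=
  Finset.univ.filter (fun w => f (w - u) = 1 ∧ f (w - v) = 1)

omit [Fact (4 ∣ n)] in
lemma mem_cnn {u v w : ZMod n} : w ∈ cnn f u v ↔ f (w - u) = 1 ∧ f (w - v) = 1 := by
  simp [cnn]

lemma mem_FF {x : ZMod n} : 2 * x ∈ FF f ↔ x ∈ EE f := by
  constructor
  · rintro ⟨e, he, h⟩
    rcases two_mul_eq h with h1 | h1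
    · rw [h1]; exact he
    · rw [h1, EE_io]; exact he
  · intro h; exact ⟨x, h, rfl⟩

lemma cnn_card (H : Hyp f) (u v : ZMod n) :
    ((cnn f u v).card : ZMod 2) = 1 ↔ v - u ∈ FF f := by
  classical
  have hf := H.sym
  set A := (cnn f u v).filter (fun w => 2 * w = u + v) with hA
  have h1 : (((cnn f u v).filter (fun w => ¬ 2 * w = u + v)).card : ZMod 2) = 0 := by
    rw [Finset.cast_card]
    refine Finset.sum_involution (fun w _ => u + v - w) ?_ ?_ ?_ ?_
    · intro a _; decide
    · intro a ha _ h
      rw [Finset.mem_filter] at ha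
      apply ha.2
      linear_combination -h
    · intro a ha
      rw [Finset.mem_filter, mem_cnn] at ha ⊢
      refine ⟨⟨?_, ?_⟩, ?_⟩
      · rw [← hf]
        convert ha.1.2 using 2; ring
      · rw [← hf]
        convert ha.1.1 using 2; ring
      · intro h
        apply ha.2
        linear_combination -h
    · intro a _; ring
  have h2 : ((cnn f u v).card : ZMod 2) = (A.card : ZMod 2) := by
    have := Finset.card_filter_add_card_filter_not (s := cnn f u v) (fun w => 2 * w = u + v)
    rw [← this]
    push_cast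
    rw [h1, add_zero]
  rw [h2]
  rcases z2_cases (par (v - u)) with hev | hod
  · obtain ⟨x, hx2⟩ := exists_half hev
    have hmem : ∀ w, w ∈ A ↔ (w = u + x ∧ f x = 1) ∨ (w = u + x + io ∧ f (x + io) = 1) := by
      intro w
      rw [hA, Finset.mem_filter, mem_cnn]
      constructor
      · rintro ⟨⟨h3, h4⟩, h5⟩
        have h6 : 2 * (w - u - x) = 0 := by linear_combination h5 + hx2
        rcases two_mul_zero h6 with h7 | h7
        · left
          have : w = u + x := by linear_combination h7
          refine ⟨this, ?_⟩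
          rw [this] at h3
          convert h3 using 2; ring
        · right
          have : w = u + x + io := by linear_combination h7
          refine ⟨this, ?_⟩
          rw [this] at h3
          convert h3 using 2; ring
      · rintro (⟨h3, h4⟩ | ⟨h3, h4⟩)
        · subst h3
          refine ⟨⟨by convert h4 using 2; ring, ?_⟩, by linear_combination -hx2⟩
          rw [← hf]
          convert h4 using 2; linear_combination hx2
        · subst h3
          refine ⟨⟨by convert h4 using 2; ring, ?_⟩, by
            linear_combination -hx2 + (two_mul_io (n := n))⟩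
          rw [← hf]
          convert h4 using 2; linear_combination hx2 - (two_mul_io (n := n))
    rw [hx2, mem_FF]
    change _ ↔ f (x + io) ≠ f x
    have hxm : u + x ≠ u + x + io := by
      intro h
      apply io_ne (n := n)
      linear_combination -h
    rcases z2_cases (f x) with ha | ha <;> rcases z2_cases (f (x + io)) with hb | hb
    · have : A = ∅ := by
        ext w
        rw [hmem]; simp [ha, hb]
      rw [this, ha, hb, Finset.card_empty]; decide
    · have : A = {u + x + io} := by
        ext w
        rw [hmem]; simp [ha, hb]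
      rw [this, ha, hb, Finset.card_singleton]; decide
    · have : A = {u + x} := by
        ext w
        rw [hmem]; simp [ha, hb]
      rw [this, ha, hb, Finset.card_singleton]; decide
    · have : A = {u + x, u + x + io} := by
        ext w
        rw [hmem]; simp [ha, hb]
      rw [this, ha, hb, Finset.card_pair hxm]; decide
  · have hA0 : A = ∅ := by
      rw [Finset.eq_empty_iff_forall_notMem]
      intro w hw
      rw [hA, Finset.mem_filter] at hw
      have : v - u = 2 * (w - u) := by linear_combination -hw.2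
      rw [this, par_two_mul] at hod
      exact absurd hod (by decide)
    rw [hA0, Finset.card_empty, Nat.cast_zero]
    constructor
    · intro h; exact absurd h (by decide)
    · rintro ⟨x, -, hx⟩
      rw [hx, par_two_mul] at hod
      exact absurd hod (by decide)

lemma pres_FF (H : Hyp f) {α β : Equiv.Perm (ZMod n)} (h : TF f α β) : Pres α (FF f) := by
  intro u v
  rw [← cnn_card H, ← cnn_card H]
  have : (cnn f u v).card = (cnn f (α u) (α v)).card := by
    refine Finset.card_bij (fun w _ => β w) ?_ ?_ ?_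
    · intro w hw
      rw [mem_cnn] at hw ⊢
      rw [h, h]
      exact hw
    · intro a _ b _ hab
      exact β.injective hab
    · intro w hw
      refine ⟨β.symm w, ?_, by simp⟩
      rw [mem_cnn] at hw ⊢
      have h1 := h u (β.symm w)
      have h2 := h v (β.symm w)
      rw [Equiv.apply_symm_apply] at h1 h2
      rw [← h1, ← h2]
      exact hw
  rw [this]

/-- the subgroup generated by E -/
def RR (f : ZMod n → ZMod 2) : AddSubgroup (ZMod n) := AddSubgroup.closure (EE f)

/-- the subgroup generated by the doubles of E -/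
def QQ (f : ZMod n → ZMod 2) : AddSubgroup (ZMod n) := AddSubgroup.closure (FF f)

lemma EE_RR {e : ZMod n} (h : e ∈ EE f) : e ∈ RR f := AddSubgroup.subset_closure h

lemma f_io {x : ZMod n} (h : x ∉ RR f) : f (x + io) = f x := by
  by_contra h1
  exact h (EE_RR h1)

lemma pres_QQ (H : Hyp f) {α β : Equiv.Perm (ZMod n)} (h : TF f α β) :
    Pres α (QQ f : Set (ZMod n)) := pres_closure (pres_FF H h)

lemma mem_QQ_iff {z : ZMod n} : z ∈ QQ f ↔ ∃ r ∈ RR f, z = 2 * r := by
  constructor
  · intro h
    induction h using AddSubgroup.closure_induction with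
    | mem z hz =>
      obtain ⟨e, he, h⟩ := hz
      exact ⟨e, EE_RR he, h⟩
    | zero => exact ⟨0, (RR f).zero_mem, by ring⟩
    | add a b _ _ ha hb =>
      obtain ⟨r, hr, rfl⟩ := ha
      obtain ⟨s, hs, rfl⟩ := hb
      exact ⟨r + s, (RR f).add_mem hr hs, by ring⟩
    | neg a _ ha =>
      obtain ⟨r, hr, rfl⟩ := ha
      exact ⟨-r, (RR f).neg_mem hr, by ring⟩
  · rintro ⟨r, hr, rfl⟩
    induction hr using AddSubgroup.closure_induction with
    | mem z hz => exact AddSubgroup.subset_closure ⟨z, hz, rfl⟩
    | zero => rw [mul_zero]; exact (QQ f).zero_mem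
    | add a b _ _ ha hb =>
      rw [mul_add]; exact (QQ f).add_mem ha hb
    | neg a _ ha =>
      rw [mul_neg]; exact (QQ f).neg_mem ha

lemma two_mul_QQ {r : ZMod n} (hr : r ∈ RR f) : 2 * r ∈ QQ f := mem_QQ_iff.2 ⟨r, hr, rfl⟩

lemma QQ_le : QQ f ≤ RR f := by
  intro z hz
  obtain ⟨r, hr, rfl⟩ := mem_QQ_iff.1 hz
  rw [two_mul]; exact (RR f).add_mem hr hr

lemma par_QQ {z : ZMod n} (hz : z ∈ QQ f) : par z = 0 := by
  obtain ⟨r, -, rfl⟩ := mem_QQ_iff.1 hz
  exact par_two_mul r

lemma exists_EE (H : Hyp f) : ∃ e, e ∈ EE f := by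
  by_contra h
  push Not at h
  apply io_ne (n := n)
  apply H.tw
  intro x
  by_contra h1
  exact h x h1

lemma io_RR (H : Hyp f) : (io : ZMod n) ∈ RR f := by
  obtain ⟨e, he⟩ := exists_EE H
  have h1 := (RR f).sub_mem (EE_RR (EE_io.2 he)) (EE_RR he)
  rwa [add_sub_cancel_left] at h1

/-- twice z in Q forces z in R -/
lemma mem_RR_of_two (H : Hyp f) {z : ZMod n} (h : 2 * z ∈ QQ f) : z ∈ RR f := by
  obtain ⟨r, hr, h1⟩ := mem_QQ_iff.1 h
  rcases two_mul_eq h1 with h2 | h2
  · rw [h2]; exact hr
  · rw [h2]; exact (RR f).add_mem hr (io_RR H)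

/-- R has index at most two over Q. -/
lemma coset_or (H : Hyp f) {a b : ZMod n} (ha : a ∈ RR f) (hb : b ∈ RR f) (hbQ : b ∉ QQ f) :
    a ∈ QQ f ∨ a - b ∈ QQ f := by
  obtain ⟨g, hg⟩ := IsAddCyclic.exists_generator (α := RR f)
  have key : ∀ a ∈ RR f, ∃ k : ℤ, a = k * (g : ZMod n) := by
    intro a ha
    obtain ⟨k, hk⟩ := AddSubgroup.mem_zmultiples_iff.1 (hg ⟨a, ha⟩)
    refine ⟨k, ?_⟩
    have h1 := congrArg Subtype.val hk
    rw [← zsmul_eq_mul]
    exact h1.symm
  have hev : ∀ k : ℤ, Even k → (k * (g : ZMod n)) ∈ QQ f := by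
    rintro k ⟨l, rfl⟩
    rw [mem_QQ_iff]
    refine ⟨l * (g : ZMod n), mul_mem' _ g.2 _, ?_⟩
    push_cast; ring
  obtain ⟨i, hi⟩ := key a ha
  obtain ⟨j, hj⟩ := key b hb
  rcases Int.even_or_odd i with h1 | h1
  · left; rw [hi]; exact hev i h1
  · right
    rcases Int.even_or_odd j with h2 | h2
    · exfalso; apply hbQ; rw [hj]; exact hev j h2
    · have h3 := hev (i - j) (h1.sub_odd h2)
      rw [hi, hj]
      convert h3 using 1
      push_cast; ring

end Pool.Agent.Helper589Four
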