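import Pool.Agent.Helper589_Four.F9

/-!
The main theorem and its two consequences.
-/

namespace Pool.Agent.Helper589Four

open Pool.Agent.Helper589TypeII

variable {n : ℕ} [NeZero n] [Fact (4 ∣ n)] {f : ZMod n → ZMod 2}

/-- Structure theorem: if there is a nontrivial two-fold automorphism, but none preserving
parities, then the involution is not in Q and the second periodic part of f has a period
outside R. -/
theorem main (H : Hyp f) {α₀ β₀ : Equiv.Perm (ZMod n)} (h₀ : TF f α₀ β₀) (hne : α₀ ≠ β₀) :
    (io : ZMod n) ∉ QQ f ∧ ∃ r, r ∉ RR f ∧ ∀ x, st f (x - r) = st f x := by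
  by_contra hcon
  have hM : ∀ α β : Equiv.Perm (ZMod n), TF f α β → ∀ x, par (β x - α x) = 0 := by
    intro α β h x
    by_cases hio : (io : ZMod n) ∈ QQ f
    · exact even_diff_A H hio h x
    · apply even_diff_B H hio _ h x
      intro r hr
      by_contra hrR
      exact hcon ⟨hio, r, hrR, hr⟩
  have C : CI f := ⟨H, fun α β h x => diff_io H hM h x, fun α β h x => comm_io H hM h₀ hne h x⟩
  obtain ⟨Z, hZ1, hZ2, hZ3⟩ := exists_Z f
  have hZ : ZZ f Z := ⟨C, hZ1, hZ2, hZ3⟩
  obtain ⟨ζ, hζ, hζ2⟩ := exists_torsion hZ2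
  apply hne
  by_cases hc : ∀ α ∈ GG f, ∀ x, α (x + ζ) - α x - ζ ∈ Z
  · exact hZ.caseB hζ hζ2 hc h₀
  · push Not at hc
    obtain ⟨α, hα, x, hx⟩ := hc
    exact hZ.caseA hζ hζ2 hα hx h₀

lemma f_io_eq (H : Hyp f) (hio : (io : ZMod n) ∉ QQ f) (x : ZMod n) :
    f (x + io) = st f x + DD f x := by
  rw [f_eq (f := f), ss_io H hio, st]
  have h1 := z2_add_self (DD f x)
  linear_combination -h1

lemma st_io (H : Hyp f) (hio : (io : ZMod n) ∉ QQ f) (x : ZMod n) :
    st f (x + io) = st f x := by
  rw [st, st, ss_io H hio, add_io_io]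
  ring

/-- first consequence -/
theorem main_fix (H : Hyp f) {α₀ β₀ : Equiv.Perm (ZMod n)} (h₀ : TF f α₀ β₀) (hne : α₀ ≠ β₀) :
    ∃ σ : Equiv.Perm (ZMod n), σ 0 = 0 ∧ σ io ≠ io ∧
      ∀ x y, f (σ y - σ x + io) = f (y - x + io) := by
  obtain ⟨hio, r, hr, hper⟩ := main H h₀ hne
  have hr' := hr
  rw [mem_RR_iff H hio, not_or] at hr'
  obtain ⟨hr1, hr2⟩ := hr'
  have hper' : ∀ x, st f (x - (r + io)) = st f x := by
    intro x
    rw [← hper x, ← st_io H hio (x - (r + io))]
    congr 1; ring
  refine ⟨swp f io (r + io) hr2, ?_, ?_, ?_⟩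
  · apply swp_fix
    · intro h
      apply hio
      have := (QQ f).neg_mem h
      convert this using 1; ring
    · intro h
      apply hr1
      have := (QQ f).neg_mem h
      convert this using 1
      linear_combination -(two_mul_io (n := n))
  · rw [swp_apply, dsp_1 (by rw [sub_self]; exact (QQ f).zero_mem)]
    intro h
    apply hr2
    have : r + io = 0 := by linear_combination h
    rw [this]; exact (QQ f).zero_mem
  · intro x y
    rw [f_io_eq H hio, f_io_eq H hio, swp_per _ hper', swp_D]

/-- second consequence: if 8 divides n, there is a nontrivial two-fold automorphism preserving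
parities -/
theorem main_eight (h8 : 8 ∣ n) (sym : ∀ x, f (-x) = f x)
    (tw : ∀ t, (∀ x, f (x + t) = f x) → t = 0)
    {α₀ β₀ : Equiv.Perm (ZMod n)} (h₀ : TF f α₀ β₀) (hne : α₀ ≠ β₀) :
    ∃ α β : Equiv.Perm (ZMod n), TF f α β ∧ (∀ x, par (α x) = par x) ∧
      (∀ x, par (β x) = par x) ∧ α ≠ β := by
  by_contra hcon
  have H : Hyp f := by
    refine ⟨sym, tw, fun α β h ha hb => ?_⟩
    by_contra hab
    exact hcon ⟨α, β, h, ha, hb, hab⟩
  obtain ⟨hio, r, hr, hper⟩ := main H h₀ hne
  -- an even period
  obtain ⟨s, hs, hsp, hse⟩ : ∃ s, s ∉ RR f ∧ (∀ x, st f (x - s) = st f x) ∧ par s = 0 := by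
    rcases z2_cases (par r) with h1 | h1
    · exact ⟨r, hr, hper, h1⟩
    · refine ⟨2 * r, ?_, ?_, par_two_mul r⟩
      · intro h2
        obtain ⟨k, hk⟩ := h8
        set q' : ZMod n := (k : ZMod n) with hq'
        have hq8 : 4 * q' = io := by
          rw [io, hq']
          have : n / 2 = 4 * k := by omega
          rw [this]; push_cast; ring
        have hrW : r ∈ AddSubgroup.zmultiples r := AddSubgroup.mem_zmultiples r
        have h3 : q' ∈ AddSubgroup.zmultiples r := by
          apply half_mem hrW h1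
          apply half_mem hrW h1
          apply half_mem hrW h1
          have : 2 * (2 * (2 * q')) = 0 := by
            linear_combination 2 * hq8 + (two_mul_io (n := n))
          rw [this]
          exact (AddSubgroup.zmultiples r).zero_mem
        obtain ⟨l, hl⟩ := AddSubgroup.mem_zmultiples_iff.1 h3
        have h4 : 2 * q' ∈ RR f := by
          have := (RR f).zsmul_mem h2 l
          convert this using 1
          rw [← hl, zsmul_eq_mul, zsmul_eq_mul]; ring
        have h5 := two_mul_QQ h4
        apply hio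
        convert h5 using 1
        linear_combination -hq8
      · intro x
        rw [← hper x, ← hper (x - r)]
        congr 1; ring
  have hs' := hs
  rw [mem_RR_iff H hio, not_or] at hs'
  obtain ⟨hs1, hs2⟩ := hs'
  set κ := swp f 0 s hs1 with hκ
  have hκp : ∀ x, par (κ x) = par x := by
    intro x
    rw [hκ, swp_apply, map_add]
    by_cases h1 : x - 0 ∈ QQ f
    · rw [dsp_1 h1, hse, add_zero]
    by_cases h2 : x - 0 - s ∈ QQ f
    · rw [dsp_2 hs1 h2, par_neg, hse, add_zero]
    · rw [dsp_3 h1 h2, map_zero, add_zero]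
  let ι : Equiv.Perm (ZMod n) := Equiv.addRight io
  have hι : ∀ x, ι x = x + io := fun x => rfl
  have hT : TF f κ (ι * κ * ι) := by
    intro u v
    have e1 : (ι * κ * ι) v - κ u = (κ (v + io) - κ u) + io := by
      rw [Equiv.Perm.mul_apply, Equiv.Perm.mul_apply, hι, hι]; ring
    rw [e1, f_io_eq H hio, hκ, swp_per _ hsp, swp_D, ← f_io_eq H hio]
    congr 1
    linear_combination (two_mul_io (n := n))
  apply hcon
  refine ⟨κ, ι * κ * ι, hT, hκp, ?_, ?_⟩
  · intro x
    rw [Equiv.Perm.mul_apply, Equiv.Perm.mul_apply, hι, hι, map_add, hκp, map_add, par_io]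
    ring
  · intro h1
    have h2 := congrArg (fun g : Equiv.Perm (ZMod n) => g 0) h1
    simp only [Equiv.Perm.mul_apply, hι] at h2
    have h3 : κ 0 = s := by
      rw [hκ, swp_apply, dsp_1 (by rw [sub_self]; exact (QQ f).zero_mem), zero_add]
    have h4 : κ (0 + io) = 0 + io := by
      rw [hκ]
      apply swp_fix
      · rw [zero_add, sub_zero]; exact hio
      · intro h5
        apply hs2
        have := (QQ f).neg_mem h5
        convert this using 1
        linear_combination (two_mul_io (n := n))
    rw [h3, h4, zero_add, io_add_io] at h2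
    apply hs1
    rw [h2]; exact (QQ f).zero_mem

end Pool.Agent.Helper589Four
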