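import Pool.Agent.Helper589_Four.F1

/-!
The case where the involution lies in Q.
-/

namespace Pool.Agent.Helper589Four

open Pool.Agent.Helper589TypeII

variable {n : ℕ} [NeZero n] [Fact (4 ∣ n)] {f : ZMod n → ZMod 2}

/-- the permutation x ↦ x + q x -/
noncomputable def sp (q : ZMod n → ZMod n) (h : Function.Injective (fun x => x + q x)) :
    Equiv.Perm (ZMod n) :=
  Equiv.ofBijective _ (Finite.injective_iff_bijective.1 h)

omit [Fact (4 ∣ n)] in
lemma sp_apply (q : ZMod n → ZMod n) (h : Function.Injective (fun x => x + q x)) (x : ZMod n) :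
    sp q h x = x + q x := rfl

omit [NeZero n] [Fact (4 ∣ n)] in
lemma inj_of_K {K : AddSubgroup (ZMod n)} {q : ZMod n → ZMod n} (h1 : ∀ x, q x ∈ K)
    (h2 : ∀ x y, y - x ∈ K → q y = q x) : Function.Injective (fun x => x + q x) := by
  intro x y h
  have h : x + q x = y + q y := h
  have h3 : y - x ∈ K := by
    have := K.sub_mem (h1 x) (h1 y)
    convert this using 1
    linear_combination -h
  rw [h2 x y h3] at h
  exact add_right_cancel h

/-- pairs of permutations moving points inside Q-cosets -/
lemma conj_eq (H : Hyp f) {α β σ τ : Equiv.Perm (ZMod n)} (h : TF f α β) (hσ : TF f σ τ)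
    (h1 : ∀ x, σ x - x ∈ QQ f) (h2 : ∀ x, τ x - x ∈ QQ f) :
    α * σ * α⁻¹ = β * τ * β⁻¹ := by
  have key : ∀ {α β : Equiv.Perm (ZMod n)}, TF f α β → ∀ {σ : Equiv.Perm (ZMod n)},
      (∀ x, σ x - x ∈ QQ f) → ∀ x, par ((α * σ * α⁻¹) x - x) = 0 := by
    intro α β h σ hσ x
    have h3 := (pres_QQ H h (α⁻¹ x) (σ (α⁻¹ x))).1 (hσ _)
    have h4 : α (α⁻¹ x) = x := by simp
    rw [h4] at h3
    exact par_QQ h3
  exact H.two' (h.conj hσ) (key h h1) (key (h.swap H) h2)

lemma tr_Q (H : Hyp f) {α β : Equiv.Perm (ZMod n)} (h : TF f α β) {q : ZMod n}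
    (hq : q ∈ QQ f) (x : ZMod n) : (α⁻¹ * β) (x + q) = (α⁻¹ * β) x + q := by
  have h1 := conj_eq H (h.swap H) (TF.tr q) (σ := Equiv.addLeft q) (τ := Equiv.addLeft q)
    (fun x => by rw [Equiv.coe_addLeft, add_sub_cancel_right]; exact hq)
    (fun x => by rw [Equiv.coe_addLeft, add_sub_cancel_right]; exact hq)
  have h2 := congrArg (fun g : Equiv.Perm (ZMod n) => α⁻¹ (g (β x))) h1
  have h3 : β⁻¹ (β x) = x := by simp
  have h4 : ∀ z, α⁻¹ (α z) = z := by intro z; simp
  simp only [Equiv.Perm.mul_apply, Equiv.coe_addLeft] at h2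
  rw [h3, h4] at h2
  rw [Equiv.Perm.mul_apply, Equiv.Perm.mul_apply, add_comm x q, h2, add_comm]

section

variable (H : Hyp f) (hio : (io : ZMod n) ∈ QQ f)

include H hio

lemma diff_R_aux {α β : Equiv.Perm (ZMod n)} (h : TF f α β) (x : ZMod n) :
    β⁻¹ x - α⁻¹ x ∈ RR f := by
  classical
  have hioR := io_RR H
  set c := α⁻¹ x with hc
  let q : ZMod n → ZMod n := fun x => if x - c ∈ RR f then io else 0
  have hq1 : ∀ x, q x ∈ RR f := by
    intro x
    by_cases h : x - c ∈ RR f
    · simp only [q, if_pos h]; exact hioR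
    · simp only [q, if_neg h]; exact (RR f).zero_mem
  have hq2 : ∀ x y, y - x ∈ RR f → q y = q x := by
    intro x y hxy
    have : y - c ∈ RR f ↔ x - c ∈ RR f := by
      have e : y - c = (y - x) + (x - c) := by ring
      rw [e]; exact AddSubgroup.add_mem_cancel_left _ hxy
    simp only [q, this]
  let σ := sp q (inj_of_K hq1 hq2)
  have hσ : ∀ x, σ x = x + q x := fun x => rfl
  have hσT : TF f σ σ := by
    intro u v
    rw [hσ, hσ]
    by_cases huv : v - u ∈ RR f
    · rw [hq2 u v huv]; congr 1; ring
    · by_cases h1 : v - c ∈ RR f <;> by_cases h2 : u - c ∈ RR f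
      · exfalso; apply huv
        have := (RR f).sub_mem h1 h2
        convert this using 1; ring
      · simp only [q, if_pos h1, if_neg h2]
        rw [← f_io huv]; congr 1; ring
      · simp only [q, if_neg h1, if_pos h2]
        rw [← f_io huv, ← sub_io]; congr 1; ring
      · simp only [q, if_neg h1, if_neg h2]; congr 1; ring
  have hσQ : ∀ x, σ x - x ∈ QQ f := by
    intro x
    rw [hσ, add_sub_cancel_left]
    by_cases h : x - c ∈ RR f
    · simp only [q, if_pos h]; exact hio
    · simp only [q, if_neg h]; exact (QQ f).zero_mem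
  have h1 := conj_eq H h hσT hσQ hσQ
  have h2 := congrArg (fun g : Equiv.Perm (ZMod n) => g x) h1
  simp only [Equiv.Perm.mul_apply] at h2
  rw [← hc] at h2
  by_contra hcon
  have h3 : σ (β⁻¹ x) = β⁻¹ x := by
    rw [hσ]; simp only [q, if_neg hcon, add_zero]
  have h4 : σ c = c + io := by
    rw [hσ]
    have : c - c ∈ RR f := by rw [sub_self]; exact (RR f).zero_mem
    simp only [q, if_pos this]
  rw [h3, h4] at h2
  have h5 : β (β⁻¹ x) = x := by simp
  have h6 : α c = x := by rw [hc]; simp
  rw [h5] at h2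
  have h7 := α.injective (h2.trans h6.symm)
  apply io_ne (n := n)
  linear_combination h7

lemma diff_R {α β : Equiv.Perm (ZMod n)} (h : TF f α β) (x : ZMod n) : β x - α x ∈ RR f := by
  have := diff_R_aux H hio h.inv x
  rwa [inv_inv, inv_inv] at this

lemma R_aux {α β : Equiv.Perm (ZMod n)} (h : TF f α β) {x y : ZMod n} (hxy : y - x ∈ RR f) :
    α y - α x ∈ RR f := by
  by_cases hQ : y - x ∈ QQ f
  · exact QQ_le ((pres_QQ H h x y).1 hQ)
  by_contra hcon
  set t := α (x + io) - α x with ht
  have htQ : t ∈ QQ f := (pres_QQ H h x (x + io)).1 (by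
    change x + io - x ∈ QQ f
    rw [add_sub_cancel_left]; exact hio)
  have hsymm : ∀ z, f (t - z) + f (t - z - t) = f z + f (z - t) := by
    intro z
    have e1 : f (t - z) = f (z - t) := by rw [← H.sym]; congr 1; ring
    have e2 : f (t - z - t) = f z := by rw [← H.sym]; congr 1; ring
    rw [e1, e2, add_comm]
  -- the function z ↦ f z + f (z - t) vanishes outside R
  have hwhere : ∀ z, z ∉ RR f → f z ≠ f (z - t) → z - (β y - α x) ∈ QQ f := by
    intro z hz hne
    obtain ⟨v, hv⟩ : ∃ v, β v = α x + z := ⟨β⁻¹ (α x + z), by simp⟩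
    have h1 := h x v
    have h2 := h (x + io) v
    have e1 : β v - α x = z := by rw [hv]; ring
    have e2 : β v - α (x + io) = z - t := by rw [hv, ht]; ring
    rw [e1] at h1
    rw [e2] at h2
    have h3 : v - x ∈ EE f := by
      change f (v - x + io) ≠ f (v - x)
      rw [← h1]
      have e3 : v - x + io = v - (x + io) := by rw [← sub_io]; ring
      rw [e3, ← h2]
      exact hne.symm
    rcases coset_or H (EE_RR h3) hxy hQ with h4 | h4
    · exfalso
      apply hz
      have h5 := (pres_QQ H (h.swap H) x v).1 h4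
      have h6 := (RR f).add_mem (QQ_le h5) (diff_R H hio h x)
      convert h6 using 1
      rw [← e1]; ring
    · have h5 : v - y ∈ QQ f := by convert h4 using 1; ring
      have h6 := (pres_QQ H (h.swap H) y v).1 h5
      have h7 : z - (β y - α x) = β v - β y := by rw [← e1]; ring
      rw [h7]; exact h6
  have hper : ∀ z, z ∉ RR f → f z = f (z - t) := by
    intro z hz
    by_contra hne
    have h1 := hwhere z hz hne
    have hz2 : t - z ∉ RR f := by
      intro h2
      apply hz
      have := (RR f).sub_mem (QQ_le htQ) h2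
      convert this using 1; ring
    have h2 := hwhere (t - z) hz2 (by
      intro h3
      apply hne
      have := hsymm z
      rw [h3, z2_add_self] at this
      exact z2_eq this.symm)
    have h3 : 2 * (β y - α x) ∈ QQ f := by
      have h4 := (QQ f).sub_mem htQ ((QQ f).add_mem h1 h2)
      convert h4 using 1; ring
    apply hz
    have h4 := (RR f).add_mem (QQ_le h1) (mem_RR_of_two H h3)
    convert h4 using 1; ring
  -- so E is contained in Q
  have hEQ : ∀ e ∈ EE f, e ∈ QQ f := by
    intro e he
    rcases coset_or H (EE_RR he) hxy hQ with h4 | h4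
    · exact h4
    exfalso
    have hv : x + e - y ∈ QQ f := by convert h4 using 1; ring
    set v := x + e with hvd
    have h1 := h x v
    have h2 := h (x + io) v
    have h5 : β v - α x ∉ RR f := by
      intro h6
      apply hcon
      have h7 := QQ_le ((pres_QQ H h y v).1 hv)
      have h8 := diff_R H hio h v
      have h9 := (RR f).sub_mem ((RR f).sub_mem h6 h8) h7
      convert h9 using 1; ring
    have h6 := hper _ h5
    have e2 : β v - α x - t = β v - α (x + io) := by rw [ht]; ring
    rw [e2, h1, h2] at h6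
    apply he
    have e3 : v - x = e := by rw [hvd]; ring
    have e4 : v - (x + io) = e + io := by rw [hvd, ← sub_io]; ring
    rw [e3, e4] at h6
    exact h6.symm
  have hRQ : RR f ≤ QQ f := by
    rw [RR, AddSubgroup.closure_le]; exact hEQ
  exact hQ (hRQ hxy)

lemma pres_R {α β : Equiv.Perm (ZMod n)} (h : TF f α β) (x y : ZMod n) :
    y - x ∈ RR f ↔ α y - α x ∈ RR f := by
  refine ⟨fun h1 => R_aux H hio h h1, fun h1 => ?_⟩
  have h2 := R_aux H hio h.inv h1
  simpa using h2

/-- In this case, the parts of a two-fold automorphism agree modulo 2. -/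
lemma even_diff_A {α β : Equiv.Perm (ZMod n)} (h : TF f α β) (x : ZMod n) :
    par (β x - α x) = 0 := by
  rcases z2_cases (par (β x - α x)) with h0 | hodd
  · exact h0
  exfalso
  set ε := α⁻¹ * β with hε
  have hεx : ∀ z, α (ε z) = β z := by intro z; rw [hε, Equiv.Perm.mul_apply]; simp
  have hTF : TF f ε ε⁻¹ := by
    have := h.inv.mul (h.swap H)
    rw [hε, mul_inv_rev, inv_inv]
    exact this
  set a := ε x - x with ha
  have hadiff : α (ε x) - α x ∈ RR f := by rw [hεx]; exact diff_R H hio h x
  have haR : a ∈ RR f := (pres_R H hio h x (ε x)).2 hadiff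
  have haQ : a ∉ QQ f := by
    intro h1
    have h2 := (pres_QQ H h x (ε x)).1 h1
    rw [hεx] at h2
    rw [par_QQ h2] at hodd
    exact absurd hodd (by decide)
  -- odd parity
  have hβodd : β x - α x ∈ RR f := diff_R H hio h x
  have hap : par a = 1 := by
    rcases z2_cases (par a) with h1 | h1
    · exfalso
      obtain ⟨y, hy⟩ := exists_half h1
      apply haQ
      rw [hy]
      apply two_mul_QQ
      apply half_mem hβodd hodd
      rw [← hy]; exact haR
    · exact h1
  have hcomm : ∀ q ∈ QQ f, ∀ z, ε (z + q) = ε z + q := fun q hq z => tr_Q H h hq z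
  -- 2a is a period of f on the coset a + Q
  have hper : ∀ q ∈ QQ f, f (a + q - 2 * a) = f (a + q) := by
    intro q hq
    have h1 := hTF x (ε x + q)
    have h2 : ε⁻¹ (ε x + q) = x + q := by
      rw [Equiv.Perm.inv_eq_iff_eq, hcomm q hq]
    rw [h2] at h1
    have e1 : x + q - ε x = a + q - 2 * a := by rw [ha]; ring
    have e2 : ε x + q - x = a + q := by rw [ha]; ring
    rw [e1, e2] at h1
    exact h1
  have h2a : 2 * a ∈ QQ f := two_mul_QQ haR
  have hperk : ∀ k : ℕ, ∀ q ∈ QQ f, f (a + q - k * (2 * a)) = f (a + q) := by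
    intro k
    induction k with
    | zero => intro q _; congr 1; push_cast; ring
    | succ k ih =>
      intro q hq
      have h1 := ih (q - 2 * a) ((QQ f).sub_mem hq h2a)
      have h2 := hper q hq
      have e1 : a + (q - 2 * a) = a + q - 2 * a := by ring
      rw [e1, h2] at h1
      rw [← h1]; congr 1; push_cast; ring
  obtain ⟨w, hw⟩ := exists_quarter (n := n)
  obtain ⟨b, hb⟩ := exists_half (x := a - 1) (by rw [par_sub, hap, map_one]; decide)
  have hwa : (w.val : ZMod n) * (2 * a) = io := by
    rw [ZMod.natCast_zmod_val]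
    have e1 : io * b * 2 = 0 := by linear_combination b * (two_mul_io (n := n))
    linear_combination a * hw + io * hb + e1
  have hEQ : ∀ e ∈ EE f, e ∈ QQ f := by
    intro e he
    rcases coset_or H (EE_RR he) haR haQ with h4 | h4
    · exact h4
    exfalso
    have h1 := hperk w.val (e - a) h4
    rw [hwa] at h1
    have e1 : a + (e - a) - io = e + io := by rw [← sub_io]; ring
    have e2 : a + (e - a) = e := by ring
    rw [e1, e2] at h1
    exact he h1
  have hRQ : RR f ≤ QQ f := by
    rw [RR, AddSubgroup.closure_le]; exact hEQ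
  exact haQ (hRQ haR)

end

end Pool.Agent.Helper589Four
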