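import Pool.Agent.Helper589_Four.F2

/-!
The case where the involution does not lie in Q: decomposition of f.
-/

namespace Pool.Agent.Helper589Four

open Pool.Agent.Helper589TypeII

variable {n : ℕ} [NeZero n] [Fact (4 ∣ n)] {f : ZMod n → ZMod 2}

lemma q_add {a b c : ZMod n} (ha : a ∈ QQ f) (hb : b ∈ QQ f) (h : c = a + b) : c ∈ QQ f := by
  rw [h]; exact (QQ f).add_mem ha hb

lemma q_sub {a b c : ZMod n} (ha : a ∈ QQ f) (hb : b ∈ QQ f) (h : c = a - b) : c ∈ QQ f := by
  rw [h]; exact (QQ f).sub_mem ha hb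

open Classical in
/-- the indicator function of the intersection of E and Q -/
noncomputable def DD (f : ZMod n → ZMod 2) (x : ZMod n) : ZMod 2 :=
  if x ∈ QQ f ∧ x ∈ EE f then 1 else 0

/-- the part of f that is periodic with respect to the involution -/
noncomputable def ss (f : ZMod n → ZMod 2) (x : ZMod n) : ZMod 2 := f x + DD f x

/-- the part of the shift of f that is periodic with respect to the involution -/
noncomputable def st (f : ZMod n → ZMod 2) (x : ZMod n) : ZMod 2 := ss f x + DD f x + DD f (x + io)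

lemma D_zero {x : ZMod n} (h : x ∉ QQ f) : DD f x = 0 := if_neg fun h1 => h h1.1

lemma D_one {x : ZMod n} (h : DD f x = 1) : x ∈ QQ f ∧ x ∈ EE f := by
  by_contra h1
  have h2 : DD f x = 0 := if_neg h1
  rw [h2] at h
  exact absurd h (by decide)

lemma D_mem {x : ZMod n} (h : DD f x ≠ 0) : x ∈ QQ f := by
  by_contra h1
  exact h (D_zero h1)

lemma D_Q {x : ZMod n} (h : x ∈ QQ f) : DD f x = 1 ↔ x ∈ EE f := by
  refine ⟨fun h1 => (D_one h1).2, fun h1 => if_pos ⟨h, h1⟩⟩

lemma f_eq (x : ZMod n) : f x = ss f x + DD f x := by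
  rw [ss, add_assoc, z2_add_self, add_zero]

lemma EE_neg (H : Hyp f) {x : ZMod n} : -x ∈ EE f ↔ x ∈ EE f := by
  change f (-x + io) ≠ f (-x) ↔ f (x + io) ≠ f x
  have e1 : f (-x + io) = f (x + io) := by
    rw [← H.sym]; congr 1
    rw [neg_add, neg_neg, neg_io]
  rw [e1, H.sym]

lemma DD_neg (H : Hyp f) (x : ZMod n) : DD f (-x) = DD f x := by
  unfold DD
  rw [EE_neg H, AddSubgroup.neg_mem_iff]

lemma ss_neg (H : Hyp f) (x : ZMod n) : ss f (-x) = ss f x := by
  rw [ss, ss, H.sym, DD_neg H]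

section

variable (H : Hyp f) (hio : (io : ZMod n) ∉ QQ f)

include hio in
lemma card_Q_odd : Odd (Nat.card (QQ f)) := by
  by_contra h
  rw [Nat.not_odd_iff_even] at h
  have : Fact (Nat.Prime 2) := ⟨Nat.prime_two⟩
  obtain ⟨x, hx⟩ := exists_prime_addOrderOf_dvd_card' (G := QQ f) 2 h.two_dvd
  have h1 : 2 * (x : ZMod n) = 0 := by
    have h2 : 2 • x = 0 := by rw [← hx]; exact addOrderOf_nsmul_eq_zero x
    have h3 := congrArg (fun z : QQ f => (z : ZMod n)) h2
    simpa [two_mul, two_nsmul] using h3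
  rcases two_mul_zero h1 with h2 | h2
  · have h3 : x = 0 := Subtype.ext h2
    rw [h3, addOrderOf_zero] at hx
    exact absurd hx (by decide)
  · apply hio
    rw [← h2]; exact x.2

omit [Fact (4 ∣ n)] in
lemma card_smul_Q [Fact (4 ∣ n)] {z : ZMod n} (hz : z ∈ QQ f) : Nat.card (QQ f) • z = 0 := by
  have := card_nsmul_eq_zero' (x := (⟨z, hz⟩ : QQ f))
  exact congrArg Subtype.val this

include hio in
lemma exists_two : ∃ k : ℤ, IsCoprime k (Nat.card (ZMod n) : ℤ) ∧ ∀ z ∈ QQ f, k • z = 2 * z := by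
  set q := Nat.card (QQ f) with hq
  have hodd := card_Q_odd hio
  have hqn : q ∣ n := by
    have := AddSubgroup.card_addSubgroup_dvd_card (QQ f)
    rwa [Nat.card_zmod] at this
  have hq0 : NeZero q := ⟨hodd.pos.ne'⟩
  let u : (ZMod q)ˣ := ZMod.unitOfCoprime 2 (Nat.coprime_two_left.2 hodd)
  obtain ⟨U, hU⟩ := ZMod.unitsMap_surjective hqn u
  have h1 : ZMod.castHom hqn (ZMod q) (U : ZMod n) = 2 := by
    have h2 := congrArg Units.val hU
    rw [ZMod.unitsMap_def, Units.coe_map] at h2
    simpa [u] using h2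
  refine ⟨((U : ZMod n).val : ℤ), ?_, ?_⟩
  · rw [Nat.card_zmod, Nat.isCoprime_iff_coprime]
    exact ZMod.val_coe_unit_coprime U
  · intro z hz
    have h3 : (((U : ZMod n).val : ℕ) : ZMod q) = ((2 : ℕ) : ZMod q) := by
      rw [← ZMod.natCast_zmod_val (U : ZMod n), map_natCast] at h1
      rw [h1]; norm_num
    rw [ZMod.natCast_eq_natCast_iff'] at h3
    rw [natCast_zsmul]
    have h4 : ∀ k : ℕ, k • z = (k % q) • z := by
      intro k
      conv_lhs => rw [← Nat.div_add_mod k q]
      rw [add_smul, mul_comm, mul_smul, card_smul_Q hz, smul_zero, zero_add]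
    rw [h4, h3, ← h4, two_nsmul, two_mul]

include H hio

lemma pres_D_set {α β : Equiv.Perm (ZMod n)} (h : TF f α β) :
    Pres α {z | z ∈ QQ f ∧ z ∈ EE f} := by
  obtain ⟨k, hk, hk2⟩ := exists_two hio
  have h1 := pres_smul hk (pres_FF H h)
  have h2 : {z : ZMod n | k • z ∈ FF f} = {z | z ∈ QQ f ∧ z ∈ EE f} := by
    ext z
    constructor
    · intro hz
      have hz : k • z ∈ FF f := hz
      have hzQ : z ∈ QQ f := by
        obtain ⟨a, b, hab⟩ := hk
        have h3 : a • (k • z) = z := by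
          rw [← mul_smul]
          have : a * k = 1 + (-b) * (Nat.card (ZMod n) : ℤ) := by linear_combination hab
          rw [this, add_smul, one_smul, zsmul_card_eq_zero, add_zero]
        rw [← h3]
        exact (QQ f).zsmul_mem (AddSubgroup.subset_closure hz) a
      refine ⟨hzQ, ?_⟩
      rw [hk2 z hzQ] at hz
      exact mem_FF.1 hz
    · rintro ⟨hz, hz2⟩
      change k • z ∈ FF f
      rw [hk2 z hz]
      exact mem_FF.2 hz2
  rw [h2] at h1
  exact h1

lemma D_tf {α β : Equiv.Perm (ZMod n)} (h : TF f α β) (x y : ZMod n) :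
    DD f (α y - α x) = DD f (y - x) := by
  classical
  have h1 := pres_D_set H hio h x y
  unfold DD
  apply if_congr _ rfl rfl
  exact h1.symm

lemma EE_or {e : ZMod n} (he : e ∈ EE f) : e ∈ QQ f ∨ e + io ∈ QQ f := by
  have := coset_or H (EE_RR he) (io_RR H) hio
  rwa [sub_io] at this

lemma mem_RR_iff {x : ZMod n} : x ∈ RR f ↔ x ∈ QQ f ∨ x + io ∈ QQ f := by
  constructor
  · intro hx
    have := coset_or H hx (io_RR H) hio
    rwa [sub_io] at this
  · rintro (h | h)
    · exact QQ_le h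
    · have := (RR f).sub_mem (QQ_le h) (io_RR H)
      rwa [add_sub_cancel_right] at this

lemma ss_io (x : ZMod n) : ss f (x + io) = ss f x := by
  by_cases h1 : x ∈ QQ f
  · have h2 : x + io ∉ QQ f := fun h => hio (q_sub h h1 (by ring))
    rw [ss, ss, D_zero h2, add_zero]
    by_cases h3 : x ∈ EE f
    · rw [(D_Q h1).2 h3]; exact z2_ne h3
    · have h4 : DD f x = 0 := if_neg fun h => h3 h.2
      rw [h4, add_zero]
      by_contra h5; exact h3 h5
  · by_cases h2 : x + io ∈ QQ f
    · rw [ss, ss, D_zero h1, add_zero]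
      by_cases h3 : x ∈ EE f
      · rw [(D_Q h2).2 (EE_io.2 h3)]
        have h4 : f (x + io) = f x + 1 := z2_ne h3
        rw [h4, add_assoc, z2_add_self, add_zero]
      · have h4 : DD f (x + io) = 0 := if_neg fun h => h3 (EE_io.1 h.2)
        rw [h4, add_zero]
        by_contra h5; exact h3 h5
    · rw [ss, ss, D_zero h1, D_zero h2, add_zero, add_zero]
      by_contra h3
      rcases EE_or H hio (e := x) h3 with h4 | h4
      · exact h1 h4
      · exact h2 h4

lemma exists_D : ∃ d, DD f d = 1 ∧ d ∈ QQ f := by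
  obtain ⟨e, he⟩ := exists_EE H
  rcases EE_or H hio he with h | h
  · exact ⟨e, (D_Q h).2 he, h⟩
  · exact ⟨e + io, (D_Q h).2 (EE_io.2 he), h⟩

/-- The basic identity. -/
lemma ident {α β : Equiv.Perm (ZMod n)} (h : TF f α β) (u x : ZMod n) :
    ss f x + ss f (x - (α (u + io) - α u)) =
      DD f x + DD f (x - (α (u + io) - α u)) + DD f (x - (β u - α u)) +
        DD f (x - (β (u + io) - α u)) := by
  obtain ⟨v, hv⟩ : ∃ v, β v = α u + x := ⟨β⁻¹ (α u + x), by simp⟩
  have h1 := h u v
  have h2 := h (u + io) v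
  have e1 : β v - α u = x := by rw [hv]; ring
  have e2 : β v - α (u + io) = x - (α (u + io) - α u) := by rw [hv]; ring
  rw [e1] at h1
  rw [e2] at h2
  have h3 := D_tf H hio (h.swap H) u v
  have h4 := D_tf H hio (h.swap H) (u + io) v
  have e3 : β v - β u = x - (β u - α u) := by rw [hv]; ring
  have e4 : β v - β (u + io) = x - (β (u + io) - α u) := by rw [hv]; ring
  rw [e3] at h3
  rw [e4] at h4
  have h5 : ss f (v - (u + io)) = ss f (v - u) := by
    rw [← ss_io H hio (v - (u + io))]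
    congr 1; ring
  rw [h3, h4]
  unfold ss at h5 ⊢
  rw [h1, h2]
  linear_combination h5 + z2_add_self (f (v - u)) - z2_add_self (DD f (v - (u + io)))

end

end Pool.Agent.Helper589Four
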