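import Pool.Agent.Helper589_Four.F3

/-!
Analysis of the basic identity modulo Q.
-/

namespace Pool.Agent.Helper589Four

open Pool.Agent.Helper589TypeII

variable {n : ℕ} [NeZero n] [Fact (4 ∣ n)] {f : ZMod n → ZMod 2}

/-- The right-hand side of the basic identity. -/
noncomputable def Ph (f : ZMod n → ZMod 2) (t b c x : ZMod n) : ZMod 2 :=
  DD f x + DD f (x - t) + DD f (x - b) + DD f (x - c)

/-- data of the basic identity -/
structure Dat (f : ZMod n → ZMod 2) (t b c : ZMod n) : Prop where
  H : Hyp f
  hio : (io : ZMod n) ∉ QQ f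
  ht : t ∉ QQ f
  hbc : b - c ∉ QQ f
  id : ∀ x, ss f x + ss f (x - t) = Ph f t b c x

namespace Dat

variable {t b c : ZMod n} (h : Dat f t b c)

include h

lemma per (x : ZMod n) : Ph f t b c (x + io) = Ph f t b c x := by
  rw [← h.id, ← h.id, ss_io h.H h.hio]
  have e : x + io - t = x - t + io := by ring
  rw [e, ss_io h.H h.hio]

lemma symm (x : ZMod n) : Ph f t b c (t - x) = Ph f t b c x := by
  rw [← h.id, ← h.id]
  have e1 : ss f (t - x) = ss f (x - t) := by rw [← ss_neg h.H]; congr 1; ring
  have e2 : ss f (t - x - t) = ss f x := by rw [← ss_neg h.H]; congr 1; ring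
  rw [e1, e2, add_comm]

/-- the case t ∈ Q + n/2 -/
lemma case1 (h1 : t + io ∈ QQ f) (hb : b ∉ RR f) : False := by
  obtain ⟨d, hd1, hd⟩ := exists_D h.H h.hio
  have hio := h.hio
  have hbc := h.hbc
  have ht := h.ht
  rw [mem_RR_iff h.H hio, not_or] at hb
  obtain ⟨hb1, hb2⟩ := hb
  have hzz : (io : ZMod n) + io = 0 := io_add_io
  -- evaluate at b + d
  have h2 := h.per (b + d)
  have h3 : b + io - c ∈ QQ f := by
    by_contra hcon
    have e1 : Ph f t b c (b + d) = 1 := by
      have a1 : DD f (b + d) = 0 := D_zero fun hx => hb1 (q_sub hx hd (by ring))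
      have a2 : DD f (b + d - t) = 0 := D_zero fun hx =>
        hb2 (q_add (q_sub hx hd rfl) h1 (by ring))
      have a3 : DD f (b + d - b) = 1 := by rw [← hd1]; congr 1; ring
      have a4 : DD f (b + d - c) = 0 := D_zero fun hx => hbc (q_sub hx hd (by ring))
      rw [Ph, a1, a2, a3, a4]; decide
    have e2 : Ph f t b c (b + d + io) = 0 := by
      have a1 : DD f (b + d + io) = 0 := D_zero fun hx => hb2 (q_sub hx hd (by ring))
      have a2 : DD f (b + d + io - t) = 0 := D_zero fun hx =>
        hb1 (q_add (q_sub hx hd rfl) h1 (by linear_combination -hzz))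
      have a3 : DD f (b + d + io - b) = 0 := D_zero fun hx => hio (q_sub hx hd (by ring))
      have a4 : DD f (b + d + io - c) = 0 := D_zero fun hx => hcon (q_sub hx hd (by ring))
      rw [Ph, a1, a2, a3, a4]; decide
    rw [e1, e2] at h2
    exact absurd h2 (by decide)
  have hc1 : c ∉ QQ f := fun hx => hb2 (q_add h3 hx (by ring))
  have hc2 : c + io ∉ QQ f := fun hx => hb1 (q_add h3 hx (by linear_combination -hzz))
  have hQ : ∀ x ∈ QQ f, Ph f t b c x = DD f x := by
    intro x hx
    have a2 : DD f (x - t) = 0 := D_zero fun hy => ht (q_sub hx hy (by ring))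
    have a3 : DD f (x - b) = 0 := D_zero fun hy => hb1 (q_sub hx hy (by ring))
    have a4 : DD f (x - c) = 0 := D_zero fun hy => hc1 (q_sub hx hy (by ring))
    rw [Ph, a2, a3, a4, add_zero, add_zero, add_zero]
  set j := t + io with hj
  have hQ2 : ∀ x ∈ QQ f, DD f (x - j) = DD f x := by
    intro x hx
    rw [← hQ x hx, ← h.per]
    have a1 : DD f (x + io) = 0 := D_zero fun hy => hio (q_sub hy hx (by ring))
    have a2 : x + io - t = x - j := by rw [hj]; linear_combination hzz
    have a3 : DD f (x + io - b) = 0 := D_zero fun hy =>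
      hb2 (q_sub hx hy (by linear_combination hzz))
    have a4 : DD f (x + io - c) = 0 := D_zero fun hy =>
      hc2 (q_sub hx hy (by linear_combination hzz))
    rw [Ph, a1, a2, a3, a4, zero_add, add_zero, add_zero]
  have hs : ∀ x ∈ QQ f, ss f (x - j) = ss f x + DD f x := by
    intro x hx
    have h4 := h.id x
    rw [hQ x hx, ← ss_io h.H hio (x - t)] at h4
    have e : x - t + io = x - j := by rw [hj]; linear_combination hzz
    rw [e] at h4
    rw [← h4]
    linear_combination -z2_add_self (ss f x)
  have hk : ∀ k : ℕ, ss f (d - k * j) = ss f d + k * DD f d ∧ DD f (d - k * j) = DD f d := by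
    intro k
    induction k with
    | zero =>
      have e : d - ((0 : ℕ) : ZMod n) * j = d := by push_cast; ring
      rw [e]; simp
    | succ k ih =>
      obtain ⟨ih1, ih2⟩ := ih
      have hm : d - k * j ∈ QQ f := (QQ f).sub_mem hd (mul_mem' _ h1 _)
      have e : d - ((k + 1 : ℕ) : ZMod n) * j = d - k * j - j := by push_cast; ring
      rw [e, hs _ hm, hQ2 _ hm, ih1, ih2]
      refine ⟨?_, rfl⟩
      push_cast; ring
  have h5 := (hk (Nat.card (QQ f))).1
  have h6 : ((Nat.card (QQ f) : ℕ) : ZMod n) * j = 0 := by
    rw [← nsmul_eq_mul]; exact card_smul_Q h1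
  have h7 : ((Nat.card (QQ f) : ℕ) : ZMod 2) = 1 :=
    ZMod.natCast_eq_one_iff_odd.2 (card_Q_odd hio)
  rw [h6, sub_zero, h7, one_mul, hd1] at h5
  have h8 : ∀ a : ZMod 2, a ≠ a + 1 := by decide
  exact h8 _ h5

/-- the case t ∉ R -/
lemma case2 (h1 : t + io ∉ QQ f) (hb : b ∉ RR f) :
    (∀ x, ss f (x - t) = ss f x) ∨ (∀ x, st f (x - t) = st f x) := by
  obtain ⟨d, hd1, hd⟩ := exists_D h.H h.hio
  have hio := h.hio
  have hbc := h.hbc
  have ht := h.ht
  have hRR := fun x => mem_RR_iff h.H hio (x := x)
  rw [hRR, not_or] at hb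
  obtain ⟨hb1, hb2⟩ := hb
  have hzz : (io : ZMod n) + io = 0 := io_add_io
  have tR : t ∉ RR f := by rw [hRR, not_or]; exact ⟨ht, h1⟩
  -- evaluate at d
  have hc : c ∈ RR f := by
    by_contra hcon
    rw [hRR, not_or] at hcon
    obtain ⟨hc1, hc2⟩ := hcon
    have h2 := h.per d
    have e1 : Ph f t b c d = 1 := by
      have a2 : DD f (d - t) = 0 := D_zero fun hy => ht (q_sub hd hy (by ring))
      have a3 : DD f (d - b) = 0 := D_zero fun hy => hb1 (q_sub hd hy (by ring))
      have a4 : DD f (d - c) = 0 := D_zero fun hy => hc1 (q_sub hd hy (by ring))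
      rw [Ph, a2, a3, a4, hd1]; decide
    have e2 : Ph f t b c (d + io) = 0 := by
      have a1 : DD f (d + io) = 0 := D_zero fun hy => hio (q_sub hy hd (by ring))
      have a2 : DD f (d + io - t) = 0 := D_zero fun hy =>
        h1 (q_sub hd hy (by linear_combination hzz))
      have a3 : DD f (d + io - b) = 0 := D_zero fun hy =>
        hb2 (q_sub hd hy (by linear_combination hzz))
      have a4 : DD f (d + io - c) = 0 := D_zero fun hy =>
        hc2 (q_sub hd hy (by linear_combination hzz))
      rw [Ph, a1, a2, a3, a4]; decide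
    rw [e1, e2] at h2
    exact absurd h2 (by decide)
  have htc : ∀ x, x - c ∉ RR f ∨ x - t ∉ RR f := by
    intro x
    by_contra hcon
    push Not at hcon
    apply tR
    have h3 := (RR f).add_mem ((RR f).sub_mem hcon.1 hcon.2) hc
    convert h3 using 1; ring
  -- evaluate at t + d
  have htb : t - b ∈ QQ f ∨ t + io - b ∈ QQ f := by
    by_contra hcon
    rw [not_or] at hcon
    obtain ⟨hc1, hc2⟩ := hcon
    have h2 := h.per (t + d)
    have e1 : Ph f t b c (t + d) = 1 := by
      have a1 : DD f (t + d) = 0 := D_zero fun hy => ht (q_sub hy hd (by ring))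
      have a2 : DD f (t + d - t) = 1 := by rw [← hd1]; congr 1; ring
      have a3 : DD f (t + d - b) = 0 := D_zero fun hy => hc1 (q_sub hy hd (by ring))
      have a4 : DD f (t + d - c) = 0 := D_zero fun hy => by
        rcases htc (t + d) with h3 | h3
        · exact h3 (QQ_le hy)
        · apply h3; rw [add_sub_cancel_left]; exact QQ_le hd
      rw [Ph, a1, a2, a3, a4]; decide
    have e2 : Ph f t b c (t + d + io) = 0 := by
      have a1 : DD f (t + d + io) = 0 := D_zero fun hy => h1 (q_sub hy hd (by ring))
      have a2 : DD f (t + d + io - t) = 0 := D_zero fun hy => hio (q_sub hy hd (by ring))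
      have a3 : DD f (t + d + io - b) = 0 := D_zero fun hy => hc2 (q_sub hy hd (by ring))
      have a4 : DD f (t + d + io - c) = 0 := D_zero fun hy => by
        rcases htc (t + d + io) with h3 | h3
        · exact h3 (QQ_le hy)
        · apply h3
          have h4 := (RR f).add_mem (QQ_le hd) (io_RR h.H)
          convert h4 using 1; ring
      rw [Ph, a1, a2, a3, a4]; decide
    rw [e1, e2] at h2
    exact absurd h2 (by decide)
  rw [hRR] at hc
  rcases hc with hc | hc <;> rcases htb with htb | htb
  · -- all terms cancel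
    left
    have hP : ∀ x, Ph f t b c x = 0 := by
      intro x
      by_cases hx : x ∈ QQ f
      · rw [← h.per]
        have a1 : DD f (x + io) = 0 := D_zero fun hy => hio (q_sub hy hx (by ring))
        have a2 : DD f (x + io - t) = 0 := D_zero fun hy =>
          h1 (q_sub hx hy (by linear_combination hzz))
        have a3 : DD f (x + io - b) = 0 := D_zero fun hy =>
          hb2 (q_sub hx hy (by linear_combination hzz))
        have a4 : DD f (x + io - c) = 0 := D_zero fun hy =>
          hio (q_sub (q_add hy hc rfl) hx (by ring))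
        rw [Ph, a1, a2, a3, a4]; decide
      by_cases hx2 : x - t ∈ QQ f
      · rw [← h.per]
        have a1 : DD f (x + io) = 0 := D_zero fun hy => h1 (q_sub hy hx2 (by ring))
        have a2 : DD f (x + io - t) = 0 := D_zero fun hy => hio (q_sub hy hx2 (by ring))
        have a3 : DD f (x + io - b) = 0 := D_zero fun hy =>
          hio (q_sub (q_sub hy hx2 rfl) htb (by ring))
        have a4 : DD f (x + io - c) = 0 := D_zero fun hy =>
          h1 (q_sub (q_add hy hc rfl) hx2 (by ring))
        rw [Ph, a1, a2, a3, a4]; decide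
      · have a3 : DD f (x - b) = 0 := D_zero fun hy => hx2 (q_sub hy htb (by ring))
        have a4 : DD f (x - c) = 0 := D_zero fun hy => hx (q_add hy hc (by ring))
        rw [Ph, D_zero hx, D_zero hx2, a3, a4]; decide
    intro x
    have h3 := h.id x
    rw [hP] at h3
    exact (z2_eq h3).symm
  · exfalso
    have e1 : Ph f t b c (t + d) = 1 := by
      have a1 : DD f (t + d) = 0 := D_zero fun hy => ht (q_sub hy hd (by ring))
      have a2 : DD f (t + d - t) = 1 := by rw [← hd1]; congr 1; ring
      have a3 : DD f (t + d - b) = 0 := D_zero fun hy =>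
        hio (q_sub htb (q_sub hy hd rfl) (by ring))
      have a4 : DD f (t + d - c) = 0 := D_zero fun hy =>
        ht (q_sub (q_add hy hc rfl) hd (by ring))
      rw [Ph, a1, a2, a3, a4]; decide
    have e2 : Ph f t b c (t + d) = 0 := by
      have e3 : t + d = t - (-d) := by ring
      have hd' := (QQ f).neg_mem hd
      rw [e3, h.symm, ← h.per]
      have a1 : DD f (-d + io) = 0 := D_zero fun hy => hio (q_sub hy hd' (by ring))
      have a2 : DD f (-d + io - t) = 0 := D_zero fun hy =>
        h1 (q_sub hd' hy (by linear_combination hzz))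
      have a3 : DD f (-d + io - b) = 0 := D_zero fun hy =>
        hb2 (q_sub hd' hy (by linear_combination hzz))
      have a4 : DD f (-d + io - c) = 0 := D_zero fun hy =>
        hio (q_sub (q_add hy hc rfl) hd' (by ring))
      rw [Ph, a1, a2, a3, a4]; decide
    rw [e1] at e2
    exact absurd e2 (by decide)
  · exfalso
    have hc1 : c ∉ QQ f := fun hy => hio (q_sub hc hy (by ring))
    have e1 : Ph f t b c d = 1 := by
      have a2 : DD f (d - t) = 0 := D_zero fun hy => ht (q_sub hd hy (by ring))
      have a3 : DD f (d - b) = 0 := D_zero fun hy => hb1 (q_sub hd hy (by ring))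
      have a4 : DD f (d - c) = 0 := D_zero fun hy => hc1 (q_sub hd hy (by ring))
      rw [Ph, a2, a3, a4, hd1]; decide
    have e2 : Ph f t b c d = 0 := by
      rw [← h.symm, ← h.per]
      have a1 : DD f (t - d + io) = 0 := D_zero fun hy => h1 (q_add hy hd (by ring))
      have a2 : DD f (t - d + io - t) = 0 := D_zero fun hy => hio (q_add hy hd (by ring))
      have a3 : DD f (t - d + io - b) = 0 := D_zero fun hy =>
        hio (q_sub (q_add hy hd rfl) htb (by ring))
      have a4 : DD f (t - d + io - c) = 0 := D_zero fun hy =>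
        ht (q_add (q_add hy hd rfl) hc (by linear_combination -hzz))
      rw [Ph, a1, a2, a3, a4]; decide
    rw [e1] at e2
    exact absurd e2 (by decide)
  · right
    have hc1 : c ∉ QQ f := fun hy => hio (q_sub hc hy (by ring))
    have htb1 : t - b ∉ QQ f := fun hy => hio (q_sub htb hy (by ring))
    have hct : c - t ∉ QQ f ∧ c + io - t ∉ QQ f := by
      refine ⟨fun hy => h1 (q_sub hc hy (by ring)), fun hy => ht (q_sub hc hy (by ring))⟩
    have key : ∀ x, DD f (x - b) + DD f (x - c) = DD f (x + io) + DD f (x - t + io) := by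
      intro x
      by_cases hx : x ∈ QQ f
      · have a1 : DD f (x + io) = 0 := D_zero fun hy => hio (q_sub hy hx (by ring))
        have a2 : DD f (x - t + io) = 0 := D_zero fun hy =>
          h1 (q_sub hx hy (by linear_combination hzz))
        have a3 : DD f (x - b) = 0 := D_zero fun hy => hb1 (q_sub hx hy (by ring))
        have a4 : DD f (x - c) = 0 := D_zero fun hy => hc1 (q_sub hx hy (by ring))
        rw [a1, a2, a3, a4]
      by_cases hx2 : x + io ∈ QQ f
      · have h3 := h.per x
        have a1 : DD f (x - t) = 0 := D_zero fun hy =>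
          h1 (q_sub hx2 hy (by ring))
        have a2 : DD f (x + io - t) = 0 := D_zero fun hy => ht (q_sub hx2 hy (by ring))
        have a3 : DD f (x + io - b) = 0 := D_zero fun hy => hb1 (q_sub hx2 hy (by ring))
        have a4 : DD f (x + io - c) = 0 := D_zero fun hy => hc1 (q_sub hx2 hy (by ring))
        rw [Ph, Ph, a1, a2, a3, a4, D_zero hx, add_zero, add_zero, add_zero, zero_add,
          zero_add] at h3
        have e : x - t + io = x + io - t := by ring
        rw [e, a2, add_zero, h3]
      by_cases hx3 : x - t ∈ QQ f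
      · have a2 : DD f (x - t + io) = 0 := D_zero fun hy => hio (q_sub hy hx3 (by ring))
        have a3 : DD f (x - b) = 0 := D_zero fun hy => htb1 (q_sub hy hx3 (by ring))
        have a4 : DD f (x - c) = 0 := D_zero fun hy => hct.1 (q_sub hx3 hy (by ring))
        rw [D_zero hx2, a2, a3, a4]
      by_cases hx4 : x - t + io ∈ QQ f
      · have h3 := h.per x
        have e : x + io - t = x - t + io := by ring
        have a3 : DD f (x + io - b) = 0 := D_zero fun hy => htb1 (q_sub hy hx4 (by ring))
        have a4 : DD f (x + io - c) = 0 := D_zero fun hy => hct.1 (q_sub hx4 hy (by ring))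
        rw [Ph, Ph, e, a3, a4, D_zero hx, D_zero hx2, D_zero hx3, add_zero, add_zero, zero_add,
          zero_add, zero_add] at h3
        rw [D_zero hx2, zero_add, h3]
      · have a3 : DD f (x - b) = 0 := D_zero fun hy =>
          hx4 (q_sub hy htb (by linear_combination hzz))
        have a4 : DD f (x - c) = 0 := D_zero fun hy => hx2 (q_add hy hc (by ring))
        rw [D_zero hx2, D_zero hx4, a3, a4]
    intro x
    have h3 := h.id x
    rw [Ph, add_assoc, key x] at h3
    unfold st
    linear_combination h3 - z2_add_self (ss f x) + z2_add_self (DD f (x - t)) +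
      z2_add_self (DD f (x - t + io))

end Dat

/-- If no period of the periodic parts lies outside R, the parts agree modulo R. -/
lemma diff_R_B (H : Hyp f) (hio : (io : ZMod n) ∉ QQ f)
    (h1 : ∀ r, (∀ x, ss f (x - r) = ss f x) → r ∈ RR f)
    (h2 : ∀ r, (∀ x, st f (x - r) = st f x) → r ∈ RR f)
    {α β : Equiv.Perm (ZMod n)} (h : TF f α β) (u : ZMod n) : β u - α u ∈ RR f := by
  by_contra hb
  have hD : Dat f (α (u + io) - α u) (β u - α u) (β (u + io) - α u) := by
    refine ⟨H, hio, ?_, ?_, fun x => ident H hio h u x⟩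
    · intro h3
      have h4 := (pres_QQ H h u (u + io)).2 h3
      have h5 : u + io - u ∈ QQ f := h4
      rw [add_sub_cancel_left] at h5
      exact hio h5
    · intro h3
      have h3' : β (u + io) - β u ∈ QQ f := by
        have := (QQ f).neg_mem h3
        convert this using 1; ring
      have h4 := (pres_QQ H (h.swap H) u (u + io)).2 h3'
      have h5 : u + io - u ∈ QQ f := h4
      rw [add_sub_cancel_left] at h5
      exact hio h5
  by_cases ht : α (u + io) - α u + io ∈ QQ f
  · exact hD.case1 ht hb
  · have htR : α (u + io) - α u ∉ RR f := by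
      rw [mem_RR_iff H hio, not_or]; exact ⟨hD.ht, ht⟩
    rcases hD.case2 ht hb with h3 | h3
    · exact htR (h1 _ h3)
    · exact htR (h2 _ h3)

end Pool.Agent.Helper589Four
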