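import Pool.Agent.Helper589_Four.F4

/-!
Swapping two cosets of Q.
-/

namespace Pool.Agent.Helper589Four

open Pool.Agent.Helper589TypeII

variable {n : ℕ} [NeZero n] [Fact (4 ∣ n)] {f : ZMod n → ZMod 2}

open Classical in
/-- displacement of the swap of the cosets c + Q and c + r + Q -/
noncomputable def dsp (f : ZMod n → ZMod 2) (c r x : ZMod n) : ZMod n :=
  if x - c ∈ QQ f then r else if x - c - r ∈ QQ f then -r else 0

section Swap

variable {c r : ZMod n}

lemma dsp_1 {x : ZMod n} (h : x - c ∈ QQ f) : dsp f c r x = r := if_pos h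

lemma dsp_2 (hr : r ∉ QQ f) {x : ZMod n} (h : x - c - r ∈ QQ f) : dsp f c r x = -r := by
  have h1 : x - c ∉ QQ f := fun h2 => hr (q_sub h2 h (by ring))
  rw [dsp, if_neg h1, if_pos h]

lemma dsp_3 {x : ZMod n} (h : x - c ∉ QQ f) (h' : x - c - r ∉ QQ f) : dsp f c r x = 0 := by
  rw [dsp, if_neg h, if_neg h']

lemma dsp_Q {x y : ZMod n} (h : y - x ∈ QQ f) : dsp f c r y = dsp f c r x := by
  have h1 : y - c ∈ QQ f ↔ x - c ∈ QQ f :=
    ⟨fun h2 => q_sub h2 h (by ring), fun h2 => q_add h2 h (by ring)⟩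
  have h3 : y - c - r ∈ QQ f ↔ x - c - r ∈ QQ f :=
    ⟨fun h2 => q_sub h2 h (by ring), fun h2 => q_add h2 h (by ring)⟩
  unfold dsp
  rw [h1, h3]

lemma dsp_invol (hr : r ∉ QQ f) (x : ZMod n) :
    x + dsp f c r x + dsp f c r (x + dsp f c r x) = x := by
  by_cases h1 : x - c ∈ QQ f
  · rw [dsp_1 h1, dsp_2 hr (x := x + r) (by convert h1 using 1; ring)]; ring
  by_cases h2 : x - c - r ∈ QQ f
  · rw [dsp_2 hr h2, dsp_1 (x := x + -r) (by convert h2 using 1; ring)]; ring
  · rw [dsp_3 h1 h2, add_zero, dsp_3 h1 h2, add_zero]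

/-- the swap of the cosets c + Q and c + r + Q -/
noncomputable def swp (f : ZMod n → ZMod 2) (c r : ZMod n) (hr : r ∉ QQ f) :
    Equiv.Perm (ZMod n) :=
  sp (dsp f c r) (Function.Involutive.injective (f := fun x => x + dsp f c r x)
    (dsp_invol hr))

variable (hr : r ∉ QQ f)

lemma swp_apply (x : ZMod n) : swp f c r hr x = x + dsp f c r x := rfl

lemma swp_swp (x : ZMod n) : swp f c r hr (swp f c r hr x) = x := dsp_invol hr x

lemma swp_Q {x y : ZMod n} (h : y - x ∈ QQ f) : swp f c r hr y - swp f c r hr x = y - x := by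
  rw [swp_apply, swp_apply, dsp_Q h]; ring

lemma swp_Q' {x y : ZMod n} (h : y - x ∉ QQ f) : swp f c r hr y - swp f c r hr x ∉ QQ f := by
  intro h1
  have h2 := swp_Q (c := c) hr h1
  rw [swp_swp, swp_swp] at h2
  rw [← h2] at h1
  exact h h1

lemma swp_D (x y : ZMod n) : DD f (swp f c r hr y - swp f c r hr x) = DD f (y - x) := by
  by_cases h : y - x ∈ QQ f
  · rw [swp_Q hr h]
  · rw [D_zero h, D_zero (swp_Q' hr h)]

omit [NeZero n] [Fact (4 ∣ n)] in
lemma per_zsmul {s : ZMod n → ZMod 2} (hs : ∀ x, s (x - r) = s x) (k : ℤ) :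
    ∀ x, s (x - k * r) = s x := by
  have h1 : ∀ x, s (x + r) = s x := by
    intro x
    rw [← hs (x + r)]; congr 1; ring
  induction k using Int.induction_on with
  | zero => intro x; congr 1; push_cast; ring
  | succ k ih =>
    intro x
    rw [← ih x, ← hs (x - (k : ℤ) * r)]
    congr 1; push_cast; ring
  | pred k ih =>
    intro x
    rw [← ih x, ← h1 (x - ((-(k : ℤ) : ℤ) : ZMod n) * r)]
    congr 1; push_cast; ring

lemma dsp_mul (x : ZMod n) : ∃ k : ℤ, dsp f c r x = k * r := by
  by_cases h1 : x - c ∈ QQ f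
  · exact ⟨1, by rw [dsp_1 h1]; push_cast; ring⟩
  by_cases h2 : x - c - r ∈ QQ f
  · refine ⟨-1, ?_⟩
    rw [dsp, if_neg h1, if_pos h2]; push_cast; ring
  · exact ⟨0, by rw [dsp_3 h1 h2]; push_cast; ring⟩

lemma swp_per {s : ZMod n → ZMod 2} (hs : ∀ x, s (x - r) = s x) (x y : ZMod n) :
    s (swp f c r hr y - swp f c r hr x) = s (y - x) := by
  obtain ⟨k, hk⟩ := dsp_mul (f := f) (c := c) (r := r) x
  obtain ⟨l, hl⟩ := dsp_mul (f := f) (c := c) (r := r) y
  rw [swp_apply, swp_apply, hk, hl, ← per_zsmul hs (k - l) (y - x)]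
  congr 1; push_cast; ring

lemma swp_TF (hs : ∀ x, ss f (x - r) = ss f x) : TF f (swp f c r hr) (swp f c r hr) := by
  intro x y
  rw [f_eq (f := f) (swp f c r hr y - swp f c r hr x), swp_per hr hs, swp_D, ← f_eq]

lemma swp_fix {x : ZMod n} (h : x - c ∉ QQ f) (h' : x - c - r ∉ QQ f) :
    swp f c r hr x = x := by rw [swp_apply, dsp_3 h h', add_zero]

end Swap

section

variable (H : Hyp f) (hio : (io : ZMod n) ∉ QQ f)

include H hio

/-- abstract form of the coset argument -/
lemma st_per {t b1 b2 : ZMod n} (ht : t ∉ QQ f) (ht2 : t + io ∉ QQ f)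
    (hb1 : b1 ∉ QQ f) (hb2 : b2 ∉ QQ f)
    (hf : ∀ z, z - b1 ∉ QQ f → z - b2 ∉ QQ f → f (z - t) = f z)
    (h1 : io - b1 ∈ QQ f) (h2 : t + io - b2 ∈ QQ f) : ∀ x, st f (x - t) = st f x := by
  have hzz : (io : ZMod n) + io = 0 := io_add_io
  have hg : ∀ z, z + io ∉ QQ f → z - t + io ∉ QQ f →
      ss f z + ss f (z - t) = DD f z + DD f (z - t) := by
    intro z h3 h4
    have h5 := hf z (fun hy => h3 (q_sub hy h1 (by linear_combination hzz)))
      (fun hy => h4 (q_sub hy h2 (by linear_combination hzz)))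
    rw [f_eq (f := f), f_eq (f := f) z] at h5
    linear_combination h5 + z2_add_self (ss f z) - z2_add_self (DD f (z - t))
  intro z
  have key : ss f z + ss f (z - t) =
      DD f z + DD f (z + io) + DD f (z - t) + DD f (z - t + io) := by
    have hgio : ss f z + ss f (z - t) = ss f (z + io) + ss f (z + io - t) := by
      rw [ss_io H hio, ← ss_io H hio (z - t)]
      congr 2; ring
    by_cases h3 : z + io ∈ QQ f
    · have h4 := hg (z + io) (fun hy => hio (q_sub hy h3 (by ring))) (fun hy =>
        ht2 (q_sub h3 hy (by linear_combination hzz)))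
      rw [hgio, h4]
      have a1 : DD f z = 0 := D_zero fun hy => hio (q_sub h3 hy (by ring))
      have a2 : DD f (z - t) = 0 := D_zero fun hy => ht2 (q_sub h3 hy (by ring))
      have e : z + io - t = z - t + io := by ring
      rw [a1, a2, e, zero_add, add_zero]
    by_cases h5 : z - t + io ∈ QQ f
    · have h4 := hg (z + io) (fun hy => ht2 (q_sub hy h5 (by ring)))
        (fun hy => hio (q_sub hy h5 (by ring)))
      rw [hgio, h4]
      have a1 : DD f z = 0 := D_zero fun hy => ht2 (q_sub hy h5 (by linear_combination hzz))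
      have a2 : DD f (z - t) = 0 := D_zero fun hy => hio (q_sub h5 hy (by ring))
      have e : z + io - t = z - t + io := by ring
      rw [a1, a2, e, zero_add, add_zero]
    · rw [hg z h3 h5, D_zero h3, D_zero h5, add_zero, add_zero]
  unfold st
  linear_combination key - z2_add_self (ss f z) + z2_add_self (DD f (z - t)) +
    z2_add_self (DD f (z - t + io))

lemma coset_step (h2 : ∀ r, (∀ x, st f (x - r) = st f x) → r ∈ RR f)
    {α β : Equiv.Perm (ZMod n)} (h : TF f α β) {c r : ZMod n} (hr : r ∉ QQ f)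
    (hs : ∀ x, ss f (x - r) = ss f x) :
    α (c + r) - α c + io ∈ QQ f ∨ α c - β c ∈ QQ f ∨ α c - β (c + r) ∈ QQ f := by
  by_contra hcon
  rw [not_or, not_or] at hcon
  obtain ⟨ht2, hb1, hb2⟩ := hcon
  have hzz : (io : ZMod n) + io = 0 := io_add_io
  set t := α (c + r) - α c with htd
  have ht : t ∉ QQ f := by
    intro h3
    have h4 : c + r - c ∈ QQ f := (pres_QQ H h c (c + r)).2 h3
    rw [add_sub_cancel_left] at h4
    exact hr h4
  set σ := swp f c r hr with hσ
  have hT := h.conj (swp_TF (c := c) hr hs)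
  rw [← hσ] at hT
  have hf : ∀ z, z - (β c - α c) ∉ QQ f → z - (β (c + r) - α c) ∉ QQ f → f (z - t) = f z := by
    intro z hz1 hz2
    have h3 := hT (α c) (α c + z)
    have e1 : (α * σ * α⁻¹) (α c) = α (c + r) := by
      have : α⁻¹ (α c) = c := by simp
      rw [Equiv.Perm.mul_apply, Equiv.Perm.mul_apply, this, hσ, swp_apply,
        dsp_1 (by rw [sub_self]; exact (QQ f).zero_mem)]
    have e2 : (β * σ * β⁻¹) (α c + z) = α c + z := by
      set w := β⁻¹ (α c + z) with hw
      have hbw : β w = α c + z := by rw [hw]; simp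
      have h4 : σ w = w := by
        apply swp_fix
        · intro h5
          apply hz1
          have h6 : β w - β c ∈ QQ f := (pres_QQ H (h.swap H) c w).1 h5
          rw [hbw] at h6
          convert h6 using 1; ring
        · intro h5
          apply hz2
          have h6 : β w - β (c + r) ∈ QQ f := (pres_QQ H (h.swap H) (c + r) w).1 (by
            change w - (c + r) ∈ QQ f
            convert h5 using 1; ring)
          rw [hbw] at h6
          convert h6 using 1; ring
      rw [Equiv.Perm.mul_apply, Equiv.Perm.mul_apply, ← hw, h4, hbw]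
    rw [e1, e2] at h3
    have e3 : α c + z - α (c + r) = z - t := by rw [htd]; ring
    have e4 : α c + z - α c = z := by ring
    rw [e3, e4] at h3
    exact h3
  set b1 := β c - α c with hb1d
  set b2 := β (c + r) - α c with hb2d
  have hb1' : b1 ∉ QQ f := fun hy => hb1 (by
    have := (QQ f).neg_mem hy; convert this using 1; rw [hb1d]; ring)
  have hb2' : b2 ∉ QQ f := fun hy => hb2 (by
    have := (QQ f).neg_mem hy; convert this using 1; rw [hb2d]; ring)
  have hg : ∀ z, z - b1 ∉ QQ f → z - b2 ∉ QQ f →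
      ss f z + ss f (z - t) = DD f z + DD f (z - t) := by
    intro z h3 h4
    have h5 := hf z h3 h4
    rw [f_eq (f := f), f_eq (f := f) z] at h5
    linear_combination h5 + z2_add_self (ss f z) - z2_add_self (DD f (z - t))
  have hgio : ∀ z, ss f (z + io) + ss f (z + io - t) = ss f z + ss f (z - t) := by
    intro z
    rw [ss_io H hio, ← ss_io H hio (z - t)]
    congr 2; ring
  have hgsym : ∀ z, ss f (t - z) + ss f (t - z - t) = ss f z + ss f (z - t) := by
    intro z
    have e1 : ss f (t - z) = ss f (z - t) := by rw [← ss_neg H]; congr 1; ring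
    have e2 : ss f (t - z - t) = ss f z := by rw [← ss_neg H]; congr 1; ring
    rw [e1, e2, add_comm]
  obtain ⟨d, hd1, hd⟩ := exists_D H hio
  have hdd : ∀ d ∈ QQ f, ss f d + ss f (d - t) = DD f d := by
    intro d hd
    rw [hg d (fun hy => hb1' (q_sub hd hy (by ring))) (fun hy => hb2' (q_sub hd hy (by ring)))]
    have a1 : DD f (d - t) = 0 := D_zero fun hy => ht (q_sub hd hy (by ring))
    rw [a1, add_zero]
  have s1 : io - b1 ∈ QQ f ∨ io - b2 ∈ QQ f := by
    by_contra hcon
    rw [not_or] at hcon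
    have h3 := hg (d + io) (fun hy => hcon.1 (q_sub hy hd (by ring)))
      (fun hy => hcon.2 (q_sub hy hd (by ring)))
    have a1 : DD f (d + io) = 0 := D_zero fun hy => hio (q_sub hy hd (by ring))
    have a2 : DD f (d + io - t) = 0 := D_zero fun hy =>
      ht2 (q_sub hd hy (by linear_combination hzz))
    rw [hgio, hdd d hd, hd1, a1, a2] at h3
    exact absurd h3 (by decide)
  have s2 : t + io - b1 ∈ QQ f ∨ t + io - b2 ∈ QQ f := by
    by_contra hcon
    rw [not_or] at hcon
    have hd' := (QQ f).neg_mem hd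
    have h3 := hg (t - (-d) + io) (fun hy => hcon.1 (q_sub hy hd (by ring)))
      (fun hy => hcon.2 (q_sub hy hd (by ring)))
    have a1 : DD f (t - (-d) + io) = 0 := D_zero fun hy => ht2 (q_sub hy hd (by ring))
    have a2 : DD f (t - (-d) + io - t) = 0 := D_zero fun hy => hio (q_sub hy hd (by ring))
    rw [hgio, hgsym, hdd (-d) hd', DD_neg H, hd1, a1, a2] at h3
    exact absurd h3 (by decide)
  have htR : t ∉ RR f := by rw [mem_RR_iff H hio, not_or]; exact ⟨ht, ht2⟩
  rcases s1 with s1 | s1 <;> rcases s2 with s2 | s2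
  · exact ht (q_sub s2 s1 (by ring))
  · exact htR (h2 t (st_per H hio ht ht2 hb1' hb2' hf s1 s2))
  · exact htR (h2 t (st_per H hio ht ht2 hb2' hb1' (fun z h3 h4 => hf z h4 h3) s1 s2))
  · exact ht (q_sub s2 s1 (by ring))

/-- If no period of the second periodic part lies outside R, the parts agree modulo 2. -/
lemma even_diff_B (h2 : ∀ r, (∀ x, st f (x - r) = st f x) → r ∈ RR f)
    {α β : Equiv.Perm (ZMod n)} (h : TF f α β) (x : ZMod n) : par (β x - α x) = 0 := by
  have hzz : (io : ZMod n) + io = 0 := io_add_io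
  by_cases h1 : ∀ r, (∀ x, ss f (x - r) = ss f x) → r ∈ RR f
  · have h3 := diff_R_B H hio h1 h2 h x
    rw [mem_RR_iff H hio] at h3
    rcases h3 with h3 | h3
    · exact par_QQ h3
    · have := par_QQ h3
      rwa [map_add, par_io, add_zero] at this
  push Not at h1
  obtain ⟨r, hs, hr⟩ := h1
  rw [mem_RR_iff H hio, not_or] at hr
  obtain ⟨hr1, hr2⟩ := hr
  have hsio : ∀ x, ss f (x - io) = ss f x := by intro x; rw [sub_io, ss_io H hio]
  have hsr : ∀ x, ss f (x - (r + io)) = ss f x := by
    intro x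
    rw [← hs x, ← hsio (x - r)]; congr 1; ring
  have hP : ∀ {a b : ZMod n}, a - b ∉ QQ f → α (x + a) - α x + io ∈ QQ f →
      α (x + b) - α x + io ∈ QQ f → False := by
    intro a b hab ha hb
    apply hab
    have h3 : α (x + a) - α (x + b) ∈ QQ f := q_sub ha hb (by ring)
    have h4 : x + a - (x + b) ∈ QQ f := (pres_QQ H h (x + b) (x + a)).2 h3
    convert h4 using 1; ring
  have hS : ∀ {a b : ZMod n}, a - b ∉ QQ f → α x - β (x + a) ∈ QQ f →
      α x - β (x + b) ∈ QQ f → False := by
    intro a b hab ha hb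
    apply hab
    have h3 : β (x + a) - β (x + b) ∈ QQ f := q_sub hb ha (by ring)
    have h4 : x + a - (x + b) ∈ QQ f := (pres_QQ H (h.swap H) (x + b) (x + a)).2 h3
    convert h4 using 1; ring
  have d1 : io - r ∉ QQ f := fun hy => hr2 (by
    have := (QQ f).neg_mem hy; convert this using 1; linear_combination hzz)
  have d2 : io - (r + io) ∉ QQ f := fun hy => hr1 (by
    have := (QQ f).neg_mem hy; convert this using 1; ring)
  have d3 : r - (r + io) ∉ QQ f := fun hy => hio (by
    have := (QQ f).neg_mem hy; convert this using 1; ring)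
  have hmain : α x - β x ∈ QQ f := by
    by_contra hcon
    have c1 := coset_step H hio h2 h (c := x) hio hsio
    have c2 := coset_step H hio h2 h (c := x) hr1 hs
    have c3 := coset_step H hio h2 h (c := x) hr2 hsr
    rcases c1 with c1 | c1 | c1
    · rcases c2 with c2 | c2 | c2
      · exact hP d1 c1 c2
      · exact hcon c2
      · rcases c3 with c3 | c3 | c3
        · exact hP d2 c1 c3
        · exact hcon c3
        · exact hS d3 c2 c3
    · exact hcon c1
    · rcases c2 with c2 | c2 | c2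
      · rcases c3 with c3 | c3 | c3
        · exact hP d3 c2 c3
        · exact hcon c3
        · exact hS d2 c1 c3
      · exact hcon c2
      · exact hS d1 c1 c2
  have h3 := par_QQ hmain
  rw [par_sub] at h3 ⊢
  rw [add_comm]; exact h3

end

end Pool.Agent.Helper589Four
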