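import Pool.Agent.Helper589_Four.F5

/-!
If the parts of all two-fold automorphisms agree modulo 2, they differ by the involution only.
-/

namespace Pool.Agent.Helper589Four

open Pool.Agent.Helper589TypeII

variable {n : ℕ} [NeZero n] [Fact (4 ∣ n)] {f : ZMod n → ZMod 2}

/-- the subgroup generated by all differences of the two parts -/
def MM (f : ZMod n → ZMod 2) : AddSubgroup (ZMod n) :=
  AddSubgroup.closure {z | ∃ α β : Equiv.Perm (ZMod n), ∃ x, TF f α β ∧ z = β x - α x}

omit [NeZero n] [Fact (4 ∣ n)] in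
lemma MM_diff {α β : Equiv.Perm (ZMod n)} (h : TF f α β) (x : ZMod n) : β x - α x ∈ MM f :=
  AddSubgroup.subset_closure ⟨α, β, x, h, rfl⟩

lemma MM_shift {α β : Equiv.Perm (ZMod n)} (h : TF f α β) {m : ZMod n}
    (hm : m ∈ MM f) : ∀ z, α (z + m) - α z ∈ MM f := by
  induction hm using AddSubgroup.closure_induction with
  | mem m hm =>
    obtain ⟨γ, δ, x, hT, rfl⟩ := hm
    intro z
    have h1 := MM_diff (h.mul ((TF.tr (f := f) (z - γ x)).mul hT)) x
    have h2 := MM_diff h (z + (δ x - γ x))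
    simp only [Equiv.Perm.mul_apply, Equiv.coe_addLeft] at h1
    have e1 : z - γ x + δ x = z + (δ x - γ x) := by ring
    have e2 : z - γ x + γ x = z := by ring
    rw [e1, e2] at h1
    have h3 := (MM f).sub_mem h1 h2
    convert h3 using 1; ring
  | zero => intro z; rw [add_zero, sub_self]; exact (MM f).zero_mem
  | add a b _ _ ha hb =>
    intro z
    have h3 := (MM f).add_mem (ha z) (hb (z + a))
    convert h3 using 1
    rw [← add_assoc]; ring
  | neg a _ ha =>
    intro z
    have h3 := (MM f).neg_mem (ha (z + -a))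
    convert h3 using 1
    rw [neg_add_cancel_right]; ring

lemma MM_sub {α β : Equiv.Perm (ZMod n)} (h : TF f α β) {x y : ZMod n} (hxy : y - x ∈ MM f) :
    α y - α x ∈ MM f := by
  have := MM_shift h hxy x
  rwa [add_sub_cancel] at this

section

variable (H : Hyp f)
  (hM : ∀ α β : Equiv.Perm (ZMod n), TF f α β → ∀ x, par (β x - α x) = 0)

include H hM

omit H in
lemma MM_par {z : ZMod n} (hz : z ∈ MM f) : par z = 0 := by
  induction hz using AddSubgroup.closure_induction with
  | mem m hm =>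
    obtain ⟨γ, δ, x, hT, rfl⟩ := hm
    exact hM γ δ hT x
  | zero => exact map_zero _
  | add a b _ _ ha hb => rw [map_add, ha, hb, add_zero]
  | neg a _ ha => rw [par_neg, ha]

lemma eq_of_MM {σ τ : Equiv.Perm (ZMod n)} (h : TF f σ τ) (h1 : ∀ x, σ x - x ∈ MM f)
    (h2 : ∀ x, τ x - x ∈ MM f) : σ = τ :=
  H.two' h (fun x => MM_par hM (h1 x)) (fun x => MM_par hM (h2 x))

lemma eps {α β : Equiv.Perm (ZMod n)} (h : TF f α β) (x : ZMod n) :
    α⁻¹ (β x) = x ∨ α⁻¹ (β x) = x + io := by
  set ε := α⁻¹ * β with hε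
  have hx : ∀ x, ε x = α⁻¹ (β x) := fun x => by rw [hε, Equiv.Perm.mul_apply]
  have hαβ : ∀ x, α (ε x) = β x := fun x => by rw [hx]; simp
  have hε2 : ε⁻¹ = β⁻¹ * α := by rw [hε, mul_inv_rev, inv_inv]
  have hTF : TF f ε ε⁻¹ := by
    have := h.inv.mul (h.swap H)
    rw [hε2]
    exact this
  have m1 : ∀ x, ε x - x ∈ MM f := by
    intro x
    have h1 := MM_sub h.inv (MM_diff h x)
    rw [← hx] at h1
    have h2 : α⁻¹ (α x) = x := by simp
    rwa [h2] at h1
  have m2 : ∀ x, ε⁻¹ x - x ∈ MM f := by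
    intro x
    have h1 := MM_sub (h.swap H).inv ((MM f).neg_mem (MM_diff h x) |> fun h => by
      rw [neg_sub] at h; exact h)
    have h2 : β⁻¹ (β x) = x := by simp
    rw [h2] at h1
    rw [hε2, Equiv.Perm.mul_apply]
    exact h1
  have hinv : ε = ε⁻¹ := eq_of_MM H hM hTF m1 m2
  have hεε : ∀ x, ε (ε x) = x := by
    intro x
    nth_rewrite 1 [hinv]
    simp
  -- commutation with translations by M
  have hcomm : ∀ m ∈ MM f, ∀ z, ε (z + m) = ε z + m := by
    intro m hm z
    have key : ∀ {α β : Equiv.Perm (ZMod n)}, TF f α β → ∀ x,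
        (α * Equiv.addLeft m * α⁻¹) x - x ∈ MM f := by
      intro α β h x
      have h3 := MM_shift h hm (α⁻¹ x)
      have h4 : α (α⁻¹ x) = x := by simp
      rw [h4] at h3
      simp only [Equiv.Perm.mul_apply, Equiv.coe_addLeft]
      rw [add_comm m]; exact h3
    have h1 := eq_of_MM H hM ((h.swap H).conj (TF.tr m)) (key (h.swap H)) (key h)
    have h2 := congrArg (fun g : Equiv.Perm (ZMod n) => α⁻¹ (g (β z))) h1
    have h3 : β⁻¹ (β z) = z := by simp
    have h4 : ∀ z, α⁻¹ (α z) = z := by intro z; simp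
    simp only [Equiv.Perm.mul_apply, Equiv.coe_addLeft] at h2
    rw [h3, h4] at h2
    rw [hx, hx, add_comm z m, h2, add_comm]
  have h1 : 2 * (ε x - x) = 0 := by
    have h2 := hcomm _ (m1 x) x
    rw [add_sub_cancel, hεε] at h2
    linear_combination -h2
  rw [← hx]
  rcases two_mul_zero h1 with h2 | h2
  · left; exact sub_eq_zero.1 h2
  · right; linear_combination h2

lemma diff_io {α β : Equiv.Perm (ZMod n)} (h : TF f α β) (x : ZMod n) :
    β x = α x ∨ β x = α x + io := by
  rcases eps H hM h.inv (β x) with h1 | h1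
  · left
    rw [inv_inv] at h1
    have h2 : β⁻¹ (β x) = x := by simp
    rw [h2] at h1
    exact h1.symm
  · right
    rw [inv_inv] at h1
    have h2 : β⁻¹ (β x) = x := by simp
    rw [h2] at h1
    rw [h1, add_io_io]

lemma comm_io {α₀ β₀ : Equiv.Perm (ZMod n)} (h₀ : TF f α₀ β₀) (hne : α₀ ≠ β₀)
    {α β : Equiv.Perm (ZMod n)} (h : TF f α β) (z : ZMod n) : α (z + io) = α z + io := by
  obtain ⟨x, hx⟩ : ∃ x, β₀ x = α₀ x + io := by
    by_contra hcon
    push Not at hcon
    apply hne
    ext x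
    rcases diff_io H hM h₀ x with h1 | h1
    · rw [h1]
    · exact absurd h1 (hcon x)
  have h1 := diff_io H hM (h.mul ((TF.tr (f := f) (z - α₀ x)).mul h₀)) x
  simp only [Equiv.Perm.mul_apply, Equiv.coe_addLeft] at h1
  have e1 : z - α₀ x + β₀ x = z + io := by rw [hx]; ring
  have e2 : z - α₀ x + α₀ x = z := by ring
  rw [e1, e2] at h1
  have h2 := diff_io H hM h (z + io)
  have h3 : α (z + io) = α z ∨ α (z + io) = α z + io := by
    rcases h1 with h1 | h1 <;> rcases h2 with h2 | h2
    · left; rw [← h2, h1]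
    · right; rw [← h1, h2, add_io_io]
    · right; rw [← h2, h1]
    · left
      rw [h2] at h1
      exact add_right_cancel h1
  rcases h3 with h3 | h3
  · exfalso
    have h4 := α.injective h3
    apply io_ne (n := n)
    linear_combination h4
  · exact h3

end

end Pool.Agent.Helper589Four
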