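import Pool.Agent.Helper589_Four.F6

/-!
Tools: radicals and the 2-power trick modulo an invariant subgroup.
-/

namespace Pool.Agent.Helper589Four

open Pool.Agent.Helper589TypeII

section General

variable {A : Type} [AddCommGroup A]

/-- translations by elements of the radical preserve all invariant sets outside C -/
def rd (G : Subgroup (Equiv.Perm A)) (C : AddSubgroup A) : AddSubgroup A where
  carrier := {l | l ∈ C ∧ ∀ T, IsInv G T → ∀ z, z ∉ C → (z ∈ T ↔ z + l ∈ T)}
  zero_mem' := ⟨C.zero_mem, fun T _ z _ => by rw [add_zero]⟩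
  add_mem' := by
    rintro a b ⟨ha, ha'⟩ ⟨hb, hb'⟩
    refine ⟨C.add_mem ha hb, fun T hT z hz => ?_⟩
    rw [ha' T hT z hz, ← add_assoc]
    apply hb' T hT
    intro h
    apply hz
    have := C.sub_mem h ha
    rwa [add_sub_cancel_right] at this
  neg_mem' := by
    rintro a ⟨ha, ha'⟩
    refine ⟨C.neg_mem ha, fun T hT z hz => ?_⟩
    have h1 : z + -a ∉ C := by
      intro h
      apply hz
      have := C.add_mem h ha
      rwa [neg_add_cancel_right] at this
    have h2 := ha' T hT (z + -a) h1
    rw [neg_add_cancel_right] at h2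
    exact h2.symm

lemma rd_inv {G : Subgroup (Equiv.Perm A)} {C : AddSubgroup A} (hC : IsInv G (C : Set A)) :
    IsInv G (rd G C : Set A) := by
  apply isInv_of_imp
  rintro g hg x y ⟨h1, h2⟩
  refine ⟨(hC g hg x y).1 h1, fun T hT z hz => ?_⟩
  obtain ⟨v, hv⟩ : ∃ v, g v = g x - z := ⟨g⁻¹ (g x - z), by simp⟩
  have e1 : z = g x - g v := by rw [hv]; abel
  have e2 : z + (g y - g x) = g y - g v := by rw [hv]; abel
  have h3 : x - v ∈ T ↔ g x - g v ∈ T := hT g hg v x
  have h4 : y - v ∈ T ↔ g y - g v ∈ T := hT g hg v y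
  rw [e2, e1, ← h3, ← h4]
  have h5 : y - v = (x - v) + (y - x) := by abel
  rw [h5]
  apply h2 T hT
  intro h6
  apply hz
  rw [e1]
  exact (hC g hg v x).1 h6

lemma fib_eq_ncard [Fintype A] (q : ℕ) (T : Set A) (z : A) :
    fib q T z = Set.ncard {t | t ∈ T ∧ q • t = z} := by
  classical
  rw [fib, ← Set.ncard_coe_finset]
  congr 1
  ext t
  simp

lemma exists_quot_perm {L : AddSubgroup A} {g : Equiv.Perm A} (hL : Pres g (L : Set A)) :
    ∃ γ : Equiv.Perm (A ⧸ L), ∀ x : A, γ (x : A ⧸ L) = ((g x : A) : A ⧸ L) := by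
  have hL' : Pres g⁻¹ (L : Set A) := pres_inv hL
  have hout : ∀ τ : Equiv.Perm A, Pres τ (L : Set A) → ∀ x : A,
      ((τ (Quotient.out (x : A ⧸ L)) : A) : A ⧸ L) = ((τ x : A) : A ⧸ L) := by
    intro τ hτ x
    rw [QuotientAddGroup.eq]
    have h1 : ((Quotient.out (x : A ⧸ L) : A) : A ⧸ L) = (x : A ⧸ L) := QuotientAddGroup.out_eq' _
    rw [QuotientAddGroup.eq] at h1
    have h2 : τ x - τ (Quotient.out (x : A ⧸ L)) ∈ L :=
      (hτ (Quotient.out (x : A ⧸ L)) x).1 (by
        change x - Quotient.out (x : A ⧸ L) ∈ L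
        convert h1 using 1; abel)
    convert h2 using 1; abel
  let γ : Equiv.Perm (A ⧸ L) :=
    { toFun := fun q => ((g q.out : A) : A ⧸ L)
      invFun := fun q => ((g⁻¹ q.out : A) : A ⧸ L)
      left_inv := by
        intro q
        induction q using QuotientAddGroup.induction_on with
        | H x =>
          have h1 := hout g hL x
          have h2 := hout g⁻¹ hL' (g x)
          simp only [h1, h2]
          simp
      right_inv := by
        intro q
        induction q using QuotientAddGroup.induction_on with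
        | H x =>
          have h1 := hout g⁻¹ hL' x
          have h2 := hout g hL (g⁻¹ x)
          simp only [h1, h2]
          simp }
  exact ⟨γ, fun x => hout g hL x⟩

end General

variable {n : ℕ} [NeZero n]

lemma half_or {L : AddSubgroup (ZMod n)} {x h : ZMod n} (hx : 2 * x ∈ L) (hh : 2 * h ∈ L)
    (hL : h ∉ L) : x ∈ L ∨ x - h ∈ L := by
  let K : AddSubgroup (ZMod n) :=
    { carrier := {x | 2 * x ∈ L}
      zero_mem' := by
        change (2 : ZMod n) * 0 ∈ L
        rw [mul_zero]; exact L.zero_mem
      add_mem' := by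
        intro a b ha hb
        change 2 * (a + b) ∈ L
        rw [mul_add]; exact L.add_mem ha hb
      neg_mem' := by
        intro a ha
        change 2 * (-a) ∈ L
        rw [mul_neg]; exact L.neg_mem ha }
  obtain ⟨g, hg⟩ := IsAddCyclic.exists_generator (α := K)
  have hgL : 2 * (g : ZMod n) ∈ L := g.2
  have key : ∀ a : ZMod n, 2 * a ∈ L → ∃ k : ℤ, a = k * (g : ZMod n) := by
    intro a ha
    obtain ⟨k, hk⟩ := AddSubgroup.mem_zmultiples_iff.1 (hg ⟨a, ha⟩)
    refine ⟨k, ?_⟩
    have h1 := congrArg Subtype.val hk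
    rw [← zsmul_eq_mul]
    exact h1.symm
  have hev : ∀ k : ℤ, Even k → (k * (g : ZMod n)) ∈ L := by
    rintro k ⟨l, rfl⟩
    have h1 := L.zsmul_mem hgL l
    rw [zsmul_eq_mul] at h1
    convert h1 using 1
    push_cast; ring
  obtain ⟨i, hi⟩ := key x hx
  obtain ⟨j, hj⟩ := key h hh
  rcases Int.even_or_odd i with h1 | h1
  · left; rw [hi]; exact hev i h1
  · right
    rcases Int.even_or_odd j with h2 | h2
    · exfalso; apply hL; rw [hj]; exact hev j h2
    · have h3 := hev (i - j) (h1.sub_odd h2)
      rw [hi, hj]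
      convert h3 using 1
      push_cast; ring

/-- doubles of the places where T is not periodic with respect to h, modulo L -/
def tw (L : AddSubgroup (ZMod n)) (h : ZMod n) (T : Set (ZMod n)) : Set (ZMod n) :=
  {z | ∃ x, z - 2 * x ∈ L ∧ ¬ (x ∈ T ↔ x + h ∈ T)}

/-- the 2-power trick modulo L -/
lemma tw_pres {L : AddSubgroup (ZMod n)} {g : Equiv.Perm (ZMod n)} (hL : Pres g (L : Set (ZMod n)))
    {T : Set (ZMod n)} (hT : Pres g T) (hTL : ∀ x, ∀ l ∈ L, (x ∈ T ↔ x + l ∈ T))
    {h : ZMod n} (hh : 2 * h ∈ L) (hhL : h ∉ L) : Pres g (tw L h T) := by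
  obtain ⟨γ, hγ⟩ := exists_quot_perm hL
  have := Fintype.ofFinite (ZMod n ⧸ L)
  let T' : Set (ZMod n ⧸ L) := {q | ∃ x ∈ T, (x : ZMod n ⧸ L) = q}
  have hmem : ∀ x : ZMod n, (x : ZMod n ⧸ L) ∈ T' ↔ x ∈ T := by
    intro x
    constructor
    · rintro ⟨y, hy, hyx⟩
      rw [QuotientAddGroup.eq] at hyx
      have h1 := (hTL y _ hyx).1 hy
      convert h1 using 1; abel
    · intro hx; exact ⟨x, hx, rfl⟩
  have hT' : Pres γ T' := by
    intro a b
    induction a using QuotientAddGroup.induction_on with
    | H x =>
      induction b using QuotientAddGroup.induction_on with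
      | H y =>
        rw [hγ, hγ, ← QuotientAddGroup.mk_sub, ← QuotientAddGroup.mk_sub, hmem, hmem]
        exact hT x y
  have h2 := pres_fib Nat.prime_two hT'
  have key : ∀ z : ZMod n, (z : ZMod n ⧸ L) ∈ {z | (fib 2 T' z : ZMod 2) ≠ 0} ↔
      z ∈ tw L h T := by
    intro z
    change (fib 2 T' (z : ZMod n ⧸ L) : ZMod 2) ≠ 0 ↔
      ∃ x, z - 2 * x ∈ L ∧ ¬ (x ∈ T ↔ x + h ∈ T)
    have hdbl : ∀ x : ZMod n, 2 • (x : ZMod n ⧸ L) = (z : ZMod n ⧸ L) ↔ z - 2 * x ∈ L := by
      intro x
      rw [← QuotientAddGroup.mk_nsmul, eq_comm, QuotientAddGroup.eq, two_nsmul, ← two_mul]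
      rw [← AddSubgroup.neg_mem_iff]
      have : -(-z + 2 * x) = z - 2 * x := by ring
      rw [this]
    by_cases hz : ∃ x, z - 2 * x ∈ L
    · obtain ⟨x, hx⟩ := hz
      have hfil : ∀ q : ZMod n ⧸ L, (q ∈ T' ∧ 2 • q = (z : ZMod n ⧸ L)) ↔
          (q = (x : ZMod n ⧸ L) ∧ x ∈ T) ∨ (q = ((x + h : ZMod n) : ZMod n ⧸ L) ∧ x + h ∈ T) := by
        intro q
        induction q using QuotientAddGroup.induction_on with
        | H y =>
          rw [hmem, hdbl]
          constructor
          · rintro ⟨hy1, hy2⟩
            have h3 : 2 * (y - x) ∈ L := by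
              have := L.sub_mem hx hy2
              convert this using 1; ring
            rcases half_or h3 hh hhL with h4 | h4
            · left
              refine ⟨?_, ?_⟩
              · rw [eq_comm, QuotientAddGroup.eq]
                convert h4 using 1; ring
              · have := (hTL x _ h4).2 (by rw [add_sub_cancel]; exact hy1)
                exact this
            · right
              refine ⟨?_, ?_⟩
              · rw [eq_comm, QuotientAddGroup.eq]
                convert h4 using 1; ring
              · have := (hTL (x + h) _ h4).2 (by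
                  convert hy1 using 1; ring)
                exact this
          · rintro (⟨h3, h4⟩ | ⟨h3, h4⟩)
            · rw [QuotientAddGroup.eq] at h3
              refine ⟨?_, ?_⟩
              · have := (hTL y _ h3).2 (by convert h4 using 1; ring)
                exact this
              · have h5 := L.add_mem hx (L.add_mem h3 h3)
                convert h5 using 1; ring
            · rw [QuotientAddGroup.eq] at h3
              refine ⟨?_, ?_⟩
              · have := (hTL y _ h3).2 (by convert h4 using 1; ring)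
                exact this
              · have h5 := L.sub_mem (L.add_mem hx (L.add_mem h3 h3)) hh
                convert h5 using 1; ring
      have hne : (x : ZMod n ⧸ L) ≠ ((x + h : ZMod n) : ZMod n ⧸ L) := by
        intro h3
        rw [QuotientAddGroup.eq] at h3
        apply hhL
        convert h3 using 1; ring
      have hR : (∃ y, z - 2 * y ∈ L ∧ ¬ (y ∈ T ↔ y + h ∈ T)) ↔ ¬ (x ∈ T ↔ x + h ∈ T) := by
        constructor
        · rintro ⟨y, hy1, hy2⟩ h3
          apply hy2
          have h4 : 2 * (y - x) ∈ L := by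
            have := L.sub_mem hx hy1
            convert this using 1; ring
          rcases half_or h4 hh hhL with h5 | h5
          · have h6 := hTL x _ h5
            have h7 := hTL (x + h) _ h5
            rw [add_sub_cancel] at h6
            have e : x + h + (y - x) = y + h := by ring
            rw [e] at h7
            rw [← h6, ← h7, h3]
          · have h6 := hTL (x + h) _ h5
            have h7 := hTL x (y - x - h + 2 * h) (L.add_mem h5 hh)
            have e1 : x + h + (y - x - h) = y := by ring
            have e2 : x + (y - x - h + 2 * h) = y + h := by ring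
            rw [e1] at h6
            rw [e2] at h7
            rw [← h6, ← h7, h3]
        · intro h3; exact ⟨x, hx, h3⟩
      rw [hR]
      rw [fib_eq_ncard]
      by_cases hx1 : x ∈ T <;> by_cases hx2 : x + h ∈ T
      · have : {q | q ∈ T' ∧ 2 • q = (z : ZMod n ⧸ L)} =
            {(x : ZMod n ⧸ L), ((x + h : ZMod n) : ZMod n ⧸ L)} := by
          ext q
          rw [Set.mem_setOf_eq, hfil]
          simp [hx1, hx2]
        rw [this, Set.ncard_pair hne]
        simp only [hx1, hx2, iff_self, not_true_eq_false, iff_false, ne_eq, not_not]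
        decide
      · have : {q | q ∈ T' ∧ 2 • q = (z : ZMod n ⧸ L)} = {(x : ZMod n ⧸ L)} := by
          ext q
          rw [Set.mem_setOf_eq, hfil]
          simp [hx1, hx2]
        rw [this, Set.ncard_singleton]
        simp [hx1, hx2]
      · have : {q | q ∈ T' ∧ 2 • q = (z : ZMod n ⧸ L)} =
            {((x + h : ZMod n) : ZMod n ⧸ L)} := by
          ext q
          rw [Set.mem_setOf_eq, hfil]
          simp [hx1, hx2]
        rw [this, Set.ncard_singleton]
        simp [hx1, hx2]
      · have : {q | q ∈ T' ∧ 2 • q = (z : ZMod n ⧸ L)} = ∅ := by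
          ext q
          rw [Set.mem_setOf_eq, hfil]
          simp [hx1, hx2]
        rw [this, Set.ncard_empty]
        simp [hx1, hx2]
    · constructor
      · intro h3
        exfalso
        apply hz
        obtain ⟨t, ht, ht2⟩ := exists_of_fib_ne h3
        induction t using QuotientAddGroup.induction_on with
        | H y => exact ⟨y, (hdbl y).1 ht2⟩
      · rintro ⟨x, hx, -⟩
        exact absurd ⟨x, hx⟩ hz
  intro x y
  have h3 := h2 (x : ZMod n ⧸ L) (y : ZMod n ⧸ L)
  rw [hγ, hγ, ← QuotientAddGroup.mk_sub, ← QuotientAddGroup.mk_sub, key, key] at h3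
  exact h3

end Pool.Agent.Helper589Four
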