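import Pool.Agent.Helper589_Four.F7
import Pool.Agent.Helper589_TypeII.Affine

/-!
The case where the two parts differ by the involution only: preparations.
-/

namespace Pool.Agent.Helper589Four

open Pool.Agent.Helper589TypeII

variable {n : ℕ} [NeZero n] [Fact (4 ∣ n)] {f : ZMod n → ZMod 2}

/-- the group of first parts of two-fold automorphisms -/
def GG (f : ZMod n → ZMod 2) : Subgroup (Equiv.Perm (ZMod n)) where
  carrier := {α | ∃ β, TF f α β}
  one_mem' := ⟨1, fun _ _ => rfl⟩
  mul_mem' := by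
    rintro a b ⟨a', ha⟩ ⟨b', hb⟩
    exact ⟨a' * b', ha.mul hb⟩
  inv_mem' := by
    rintro a ⟨a', ha⟩
    exact ⟨a'⁻¹, ha.inv⟩

lemma mem_GG {α : Equiv.Perm (ZMod n)} : α ∈ GG f ↔ ∃ β, TF f α β := Iff.rfl

/-- the two parts differ by the involution only -/
structure CI (f : ZMod n → ZMod 2) : Prop where
  H : Hyp f
  df : ∀ α β : Equiv.Perm (ZMod n), TF f α β → ∀ x, β x = α x ∨ β x = α x + io
  cm : ∀ α β : Equiv.Perm (ZMod n), TF f α β → ∀ x, α (x + io) = α x + io

/-- edges outside R -/
def T0 (f : ZMod n → ZMod 2) : Set (ZMod n) := {z | z ∉ RR f ∧ f z = 1}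

lemma exists_torsion {L : AddSubgroup (ZMod n)} (hL : ∀ z ∈ L, par z = 0) :
    ∃ h, h ∉ L ∧ 2 * h ∈ L := by
  by_contra hcon
  push Not at hcon
  have hcon' : ∀ h, 2 * h ∈ L → h ∈ L := by
    intro h h1
    by_contra h2
    exact hcon h h2 h1
  obtain ⟨a, k, hk, hn⟩ := Nat.exists_eq_two_pow_mul_odd (n := n) (NeZero.ne n)
  have key : ∀ a : ℕ, ∀ x : ZMod n, 2 ^ a * x ∈ L → x ∈ L := by
    intro a
    induction a with
    | zero => intro x hx; rwa [pow_zero, one_mul] at hx
    | succ a ih =>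
      intro x hx
      apply ih
      apply hcon'
      convert hx using 1; ring
  have h1 : (k : ZMod n) ∈ L := by
    apply key a
    have : (2 : ZMod n) ^ a * (k : ZMod n) = 0 := by
      have h2 : ((2 ^ a * k : ℕ) : ZMod n) = 0 := by rw [← hn]; exact ZMod.natCast_self n
      push_cast at h2
      exact h2
    rw [this]; exact L.zero_mem
  have h2 := hL _ h1
  rw [par_natCast, ZMod.natCast_eq_one_iff_odd.2 hk] at h2
  exact absurd h2 (by decide)

/-- the largest invariant subgroup consisting of even residues -/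
lemma exists_Z (f : ZMod n → ZMod 2) : ∃ Z : AddSubgroup (ZMod n),
    IsInv (GG f) (Z : Set (ZMod n)) ∧ (∀ z ∈ Z, par z = 0) ∧
    ∀ K : AddSubgroup (ZMod n), IsInv (GG f) (K : Set (ZMod n)) → (∀ z ∈ K, par z = 0) →
      K ≤ Z := by
  let U : Set (ZMod n) := {z | ∃ K : AddSubgroup (ZMod n), IsInv (GG f) (K : Set (ZMod n)) ∧
    (∀ z ∈ K, par z = 0) ∧ z ∈ K}
  have hU : IsInv (GG f) U := by
    apply isInv_of_imp
    rintro g hg x y ⟨K, h1, h2, h3⟩
    exact ⟨K, h1, h2, (h1 g hg x y).1 h3⟩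
  refine ⟨AddSubgroup.closure U, hU.closure, ?_, ?_⟩
  · intro z hz
    induction hz using AddSubgroup.closure_induction with
    | mem m hm =>
      obtain ⟨K, h1, h2, h3⟩ := hm
      exact h2 m h3
    | zero => exact map_zero _
    | add a b _ _ ha hb => rw [map_add, ha, hb, add_zero]
    | neg a _ ha => rw [par_neg, ha]
  · intro K h1 h2 z hz
    exact AddSubgroup.subset_closure ⟨K, h1, h2, hz⟩

/-- data for the last part of the proof -/
structure ZZ (f : ZMod n → ZMod 2) (Z : AddSubgroup (ZMod n)) : Prop where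
  C : CI f
  inv : IsInv (GG f) (Z : Set (ZMod n))
  ev : ∀ z ∈ Z, par z = 0
  max : ∀ K : AddSubgroup (ZMod n), IsInv (GG f) (K : Set (ZMod n)) → (∀ z ∈ K, par z = 0) →
      K ≤ Z

namespace ZZ

variable {Z : AddSubgroup (ZMod n)} (h : ZZ f Z)

include h

lemma EE_iff {α β : Equiv.Perm (ZMod n)} (hT : TF f α β) (x y : ZMod n) :
    y - x ∈ EE f ↔ α y - α x ∈ EE f := by
  have h1 := hT x y
  have h2 := hT x (y + io)
  rw [h.C.cm β α (hT.swap h.C.H)] at h2
  have e1 : β y + io - α x = β y - α x + io := by ring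
  have e2 : y + io - x = y - x + io := by ring
  rw [e1, e2] at h2
  have h3 : y - x ∈ EE f ↔ β y - α x ∈ EE f := by
    change f (y - x + io) ≠ f (y - x) ↔ f (β y - α x + io) ≠ f (β y - α x)
    rw [h1, h2]
  rw [h3]
  rcases h.C.df α β hT y with h4 | h4
  · rw [h4]
  · rw [h4]
    have e3 : α y + io - α x = α y - α x + io := by ring
    rw [e3, EE_io]

lemma inv_RR : IsInv (GG f) (RR f : Set (ZMod n)) := by
  have h1 : IsInv (GG f) (EE f) := by
    rintro α ⟨β, hT⟩ x y
    exact h.EE_iff hT x y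
  exact h1.closure

lemma inv_T0 : IsInv (GG f) (T0 f) := by
  have hR := h.inv_RR
  rintro α ⟨β, hT⟩ x y
  change (y - x ∉ RR f ∧ f (y - x) = 1) ↔ (α y - α x ∉ RR f ∧ f (α y - α x) = 1)
  have h1 : y - x ∈ RR f ↔ α y - α x ∈ RR f := hR α ⟨β, hT⟩ x y
  rw [h1]
  apply and_congr_right
  intro h2
  have h3 : f (α y - α x) = f (y - x) := by
    rw [← hT x y]
    rcases h.C.df α β hT y with h4 | h4
    · rw [h4]
    · rw [h4, ← f_io h2]
      congr 1; ring
  rw [h3]

lemma two_RR {r : ZMod n} (hr : r ∈ RR f) : 2 * r ∈ Z := by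
  have h1 : IsInv (GG f) (QQ f : Set (ZMod n)) := by
    rintro α ⟨β, hT⟩
    exact pres_QQ h.C.H hT
  exact h.max _ h1 (fun z hz => par_QQ hz) (two_mul_QQ hr)

/-- consequence of the 2-power trick -/
lemma trick {L : AddSubgroup (ZMod n)} (hLinv : IsInv (GG f) (L : Set (ZMod n)))
    (hLev : ∀ z ∈ L, par z = 0) {T : Set (ZMod n)} (hT : IsInv (GG f) T)
    (hTL : ∀ x, ∀ l ∈ L, (x ∈ T ↔ x + l ∈ T)) {t : ZMod n} (ht : 2 * t ∈ L) (htL : t ∉ L)
    {x : ZMod n} (hx : ¬ (x ∈ T ↔ x + t ∈ T)) : 2 * x ∈ Z := by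
  have h1 : IsInv (GG f) (tw L t T) := fun g hg => tw_pres (hLinv g hg) (hT g hg) hTL ht htL
  have h2 := h.max _ h1.closure (by
    intro z hz
    induction hz using AddSubgroup.closure_induction with
    | mem m hm =>
      obtain ⟨y, hy, -⟩ := hm
      have h3 := hLev _ hy
      rw [par_sub, par_two_mul, add_zero] at h3
      exact h3
    | zero => exact map_zero _
    | add a b _ _ ha hb => rw [map_add, ha, hb, add_zero]
    | neg a _ ha => rw [par_neg, ha])
  apply h2
  apply AddSubgroup.subset_closure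
  exact ⟨x, by rw [sub_self]; exact L.zero_mem, hx⟩

/-- Case B: the involution modulo Z is central. -/
lemma caseB {ζ : ZMod n} (hζ : ζ ∉ Z) (hζ2 : 2 * ζ ∈ Z)
    (hc : ∀ α ∈ GG f, ∀ x, α (x + ζ) - α x - ζ ∈ Z) {α β : Equiv.Perm (ZMod n)}
    (hT : TF f α β) : α = β := by
  classical
  -- the subgroup W
  let W : AddSubgroup (ZMod n) :=
    { carrier := {z | z ∈ Z ∨ z - ζ ∈ Z}
      zero_mem' := Or.inl Z.zero_mem
      add_mem' := by
        rintro a b (ha | ha) (hb | hb)
        · left; exact Z.add_mem ha hb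
        · right
          have := Z.add_mem ha hb
          convert this using 1; ring
        · right
          have := Z.add_mem ha hb
          convert this using 1; ring
        · left
          have := Z.add_mem (Z.add_mem ha hb) hζ2
          convert this using 1; ring
      neg_mem' := by
        rintro a (ha | ha)
        · left; exact Z.neg_mem ha
        · right
          have := Z.sub_mem (Z.neg_mem ha) hζ2
          convert this using 1; ring }
  have hWmem : ∀ z, z ∈ W ↔ z ∈ Z ∨ z - ζ ∈ Z := fun z => Iff.rfl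
  have hZW : ∀ z ∈ Z, z ∈ W := fun z hz => Or.inl hz
  have hstep : ∀ g ∈ GG f, ∀ x y, y - x - ζ ∈ Z → g y - g x - ζ ∈ Z := by
    intro g hg x y hxy
    have h1 : y - (x + ζ) ∈ Z := by convert hxy using 1; ring
    have h2 : g y - g (x + ζ) ∈ Z := (h.inv g hg _ _).1 h1
    have h3 := Z.add_mem h2 (hc g hg x)
    convert h3 using 1; ring
  have hWinv : IsInv (GG f) (W : Set (ZMod n)) := by
    apply isInv_of_imp
    rintro g hg x y (h1 | h1)
    · left; exact (h.inv g hg x y).1 h1
    · right; exact hstep g hg x y h1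
  have hζW : ζ ∈ W := Or.inr (by rw [sub_self]; exact Z.zero_mem)
  have hζp : par ζ = 1 := by
    rcases z2_cases (par ζ) with h1 | h1
    · exfalso
      apply hζ
      apply h.max W hWinv _ hζW
      rintro z (hz | hz)
      · exact h.ev z hz
      · have := h.ev _ hz
        rwa [par_sub, h1, add_zero] at this
    · exact h1
  have hRW : ∀ r ∈ RR f, r ∈ W := by
    intro r hr
    exact half_or (h.two_RR hr) hζ2 hζ
  have hpar : ∀ g ∈ GG f, ∀ x y, y - x ∈ W → par (g y - g x) = par (y - x) := by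
    rintro g hg x y (h1 | h1)
    · have h2 : g y - g x ∈ Z := (h.inv g hg x y).1 h1
      rw [h.ev _ h1, h.ev _ h2]
    · have h2 := h.ev _ (hstep g hg x y h1)
      have h3 := h.ev _ h1
      rw [par_sub] at h2 h3
      rw [z2_eq h2, z2_eq h3]
  -- the radical contains an odd element
  obtain ⟨l, hl, hlp⟩ : ∃ l ∈ rd (GG f) W, par l = 1 := by
    by_contra hcon
    push Not at hcon
    have hev : ∀ l ∈ rd (GG f) W, par l = 0 := by
      intro l hl
      rcases z2_cases (par l) with h1 | h1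
      · exact h1
      · exact absurd h1 (hcon l hl)
    obtain ⟨t, ht, ht2⟩ := exists_torsion hev
    have htW : t ∈ W := half_mem hζW hζp ht2.1
    have ht3 : ¬ (t ∈ W ∧ ∀ T, IsInv (GG f) T → ∀ z, z ∉ W → (z ∈ T ↔ z + t ∈ T)) := ht
    push Not at ht3
    obtain ⟨T, hTinv, z, hz, hzT⟩ := ht3 htW
    have hadd : ∀ x, ∀ l ∈ W, (x ∈ W ↔ x + l ∈ W) := by
      intro x l hl
      exact (AddSubgroup.add_mem_cancel_right W hl).symm
    have h2z := h.trick (rd_inv hWinv) hev (T := T ∩ (W : Set (ZMod n))ᶜ)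
      (hTinv.inter hWinv.compl) (by
        intro x l hl
        change (x ∈ T ∧ x ∉ W) ↔ (x + l ∈ T ∧ x + l ∉ W)
        rw [← hadd x l hl.1]
        exact and_congr_left fun hx => hl.2 T hTinv x hx) ht2 ht (x := z) (by
        intro h3
        have h4 : (z ∈ T ∧ z ∉ W) ↔ (z + t ∈ T ∧ z + t ∉ W) := h3
        rw [← hadd z t htW] at h4
        apply absurd hzT
        simp only [hz, not_false_eq_true, and_true] at h4
        tauto)
    exact hz (half_mem hζW hζp (hZW _ h2z))
  have hlW : l ∈ W := hl.1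
  -- the correction
  let q : ZMod n → ZMod n := fun z => if par z + par (α⁻¹ z) = 0 then 0 else l
  have hq : ∀ z, q z = if par z + par (α⁻¹ z) = 0 then 0 else l := fun z => rfl
  have hqL : ∀ z, q z ∈ rd (GG f) W := by
    intro z
    rw [hq]
    split_ifs
    · exact (rd (GG f) W).zero_mem
    · exact hl
  have hqW : ∀ x y, y - x ∈ W → q y = q x := by
    intro x y hxy
    have h1 := hpar α⁻¹ ((GG f).inv_mem ⟨β, hT⟩) x y hxy
    rw [par_sub, par_sub] at h1
    have h2 : par y + par (α⁻¹ y) = par x + par (α⁻¹ x) := by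
      linear_combination h1 + z2_add_self (par y) - z2_add_self (par (α⁻¹ x))
    rw [hq, hq, h2]
  let γ := sp q (inj_of_K (fun x => (hqL x).1) hqW)
  have hγ : ∀ x, γ x = x + q x := fun x => rfl
  have hγT : TF f γ γ := by
    intro x y
    rw [hγ, hγ]
    by_cases hxy : y - x ∈ W
    · rw [hqW x y hxy]; congr 1; ring
    · have e1 : y + q y - (x + q x) = (y - x) + (q y - q x) := by ring
      rw [e1]
      have h1 := (rd (GG f) W).sub_mem (hqL y) (hqL x)
      have h2 := h1.2 _ h.inv_T0 _ hxy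
      have h3 : y - x ∉ RR f := fun h4 => hxy (hRW _ h4)
      have h5 : y - x + (q y - q x) ∉ RR f := by
        intro h4
        apply hxy
        exact (AddSubgroup.add_mem_cancel_right W h1.1).1 (hRW _ h4)
      apply z2_ext
      constructor
      · intro h6; exact (h2.2 ⟨h5, h6⟩).2
      · intro h6; exact (h2.1 ⟨h3, h6⟩).2
  have hqα : ∀ x, par (α x + q (α x)) = par x := by
    intro x
    have h1 : α⁻¹ (α x) = x := by simp
    rw [hq, h1, map_add]
    split_ifs with h2
    · rw [map_zero, add_zero]; exact z2_eq h2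
    · rw [hlp]
      revert h2
      generalize par (α x) = a
      generalize par x = b
      revert a b; decide
  have hiW : (io : ZMod n) ∈ W := hRW _ (io_RR h.C.H)
  have h1 := h.C.H.two (γ * α) (γ * β) (hγT.mul hT) (by
    intro x
    rw [Equiv.Perm.mul_apply, hγ, hqα]) (by
    intro x
    rw [Equiv.Perm.mul_apply, hγ]
    rcases h.C.df α β hT x with h2 | h2
    · rw [h2, hqα]
    · rw [h2, hqW (α x) (α x + io) (by rw [add_sub_cancel_left]; exact hiW)]
      have e : α x + io + q (α x) = (α x + q (α x)) + io := by ring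
      rw [e, map_add, par_io, add_zero, hqα])
  exact mul_left_cancel h1

end ZZ

end Pool.Agent.Helper589Four
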