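import Pool.Agent.Helper589_Four.F8

/-!
The case where the involution modulo Z is not central.
-/

namespace Pool.Agent.Helper589Four

open Pool.Agent.Helper589TypeII

section Comb

lemma z2_c1 : ∀ b : ZMod 2, b + 1 + 1 = b := by decide

lemma z2_c2 : ∀ a b : ZMod 2, ¬ a = b → a = b + 1 := by decide

lemma z2_c3 : ∀ b : ZMod 2, ¬ b + 1 = b := by decide

lemma card_half {X Y : Type} [Finite X] (c : X → Y) (p : X → ZMod 2) (φ : Equiv.Perm X)
    (hc : ∀ x, c (φ x) = c x) (hp : ∀ x, p (φ x) = p x + 1) (y : Y) (b : ZMod 2) :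
    Nat.card {x // c x = y} = 2 * Nat.card {x // c x = y ∧ p x = b} := by
  classical
  have h1 : Nat.card {x // c x = y ∧ p x = b + 1} = Nat.card {x // c x = y ∧ p x = b} := by
    refine Nat.card_congr (Equiv.subtypeEquiv φ ?_)
    intro x
    rw [hc, hp]
    constructor
    · rintro ⟨h2, h3⟩
      refine ⟨h2, ?_⟩
      rw [h3]
      exact z2_c1 b
    · rintro ⟨h2, h3⟩
      refine ⟨h2, ?_⟩
      rw [← h3]
      generalize p x = a
      revert a; decide
  have h2 : Nat.card {x // c x = y} =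
      Nat.card {x // c x = y ∧ p x = b} + Nat.card {x // c x = y ∧ p x = b + 1} := by
    rw [← Nat.card_sum]
    refine Nat.card_congr ?_
    refine (Equiv.sumCompl (fun x : {x // c x = y} => p x.1 = b)).symm.trans ?_
    refine Equiv.sumCongr ?_ ?_
    · exact
        { toFun := fun x => ⟨x.1.1, x.1.2, x.2⟩
          invFun := fun x => ⟨⟨x.1, x.2.1⟩, x.2.2⟩
          left_inv := fun x => rfl
          right_inv := fun x => rfl }
    · refine
        { toFun := fun x => ⟨x.1.1, x.1.2, ?_⟩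
          invFun := fun x => ⟨⟨x.1, x.2.1⟩, ?_⟩
          left_inv := fun x => rfl
          right_inv := fun x => rfl }
      · exact z2_c2 _ _ x.2
      · have h3 := x.2.2
        rw [h3]
        exact z2_c3 b
  rw [h2, h1]; ring

lemma exists_match {X Y : Type} [Finite X] (c : X → Y) (p₁ p₂ : X → ZMod 2)
    (φ₁ φ₂ : Equiv.Perm X)
    (hc₁ : ∀ x, c (φ₁ x) = c x) (hp₁ : ∀ x, p₁ (φ₁ x) = p₁ x + 1)
    (hc₂ : ∀ x, c (φ₂ x) = c x) (hp₂ : ∀ x, p₂ (φ₂ x) = p₂ x + 1) :
    ∃ e : X ≃ X, ∀ x, c (e x) = c x ∧ p₂ (e x) = p₁ x := by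
  have h1 : ∀ z : Y × ZMod 2, Nonempty ({x // (c x, p₁ x) = z} ≃ {x // (c x, p₂ x) = z}) := by
    rintro ⟨y, b⟩
    have h2 := card_half c p₁ φ₁ hc₁ hp₁ y b
    have h3 := card_half c p₂ φ₂ hc₂ hp₂ y b
    have h4 : Nat.card {x // (c x, p₁ x) = (y, b)} = Nat.card {x // (c x, p₂ x) = (y, b)} := by
      simp only [Prod.mk.injEq]
      omega
    exact Finite.card_eq.1 h4
  choose F hF using fun z => (⟨(h1 z).some, trivial⟩ :
    ∃ _ : ({x // (c x, p₁ x) = z} ≃ {x // (c x, p₂ x) = z}), True)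
  refine ⟨Equiv.ofFiberEquiv (f := fun x => (c x, p₁ x)) (g := fun x => (c x, p₂ x)) F, ?_⟩
  intro x
  have h2 := Equiv.ofFiberEquiv_map (f := fun x => (c x, p₁ x)) (g := fun x => (c x, p₂ x)) F x
  exact ⟨congrArg Prod.fst h2, congrArg Prod.snd h2⟩

end Comb

variable {n : ℕ} [NeZero n] [Fact (4 ∣ n)] {f : ZMod n → ZMod 2}

namespace ZZ

variable {Z : AddSubgroup (ZMod n)} (h : ZZ f Z)

include h

/-- the torsion element outside Z -/
lemma exists_h {ζ : ZMod n} (hζ : ζ ∉ Z) (hζ2 : 2 * ζ ∈ Z) {α₀ : Equiv.Perm (ZMod n)}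
    (hα₀ : α₀ ∈ GG f) {x₀ : ZMod n} (hx₀ : α₀ (x₀ + ζ) - α₀ x₀ - ζ ∉ Z) :
    ∃ t, t ∉ Z ∧ t - ζ ∈ Z ∧ ∀ T, IsInv (GG f) T → ∀ x, x ∉ Z → x - t ∉ Z →
      (x ∈ T ↔ x + t ∈ T) := by
  have hLev : ∀ l ∈ rd (GG f) Z, par l = 0 := fun l hl => h.ev l hl.1
  obtain ⟨t, ht, ht2⟩ := exists_torsion hLev
  have ht2Z : 2 * t ∈ Z := ht2.1
  have hmain : ∀ T, IsInv (GG f) T → ∀ x, x ∉ Z → 2 * x ∉ Z → x + t ∉ Z →
      (x ∈ T ↔ x + t ∈ T) := by
    intro T hT x hx hx2 hxt
    by_contra hcon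
    apply hx2
    apply h.trick (rd_inv h.inv) hLev (T := T ∩ (Z : Set (ZMod n))ᶜ) (hT.inter h.inv.compl) (by
        intro y l hl
        change (y ∈ T ∧ y ∉ Z) ↔ (y + l ∈ T ∧ y + l ∉ Z)
        rw [AddSubgroup.add_mem_cancel_right Z hl.1]
        exact and_congr_left fun hy => hl.2 T hT y hy) ht2 ht
    intro h3
    have h4 : (x ∈ T ∧ x ∉ Z) ↔ (x + t ∈ T ∧ x + t ∉ Z) := h3
    apply hcon
    constructor
    · intro h5; exact (h4.1 ⟨h5, hx⟩).1
    · intro h5; exact (h4.2 ⟨h5, hxt⟩).1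
  -- t ∉ Z
  have htZ : t ∉ Z := by
    intro htZ
    apply ht
    have hmain2 : ∀ T, IsInv (GG f) T → ∀ x, x ∉ Z → x - ζ ∉ Z → (x ∈ T ↔ x + t ∈ T) := by
      intro T hT x hx hxζ
      apply hmain T hT x hx
      · intro h2
        rcases half_or h2 hζ2 hζ with h3 | h3
        · exact hx h3
        · exact hxζ h3
      · rw [AddSubgroup.add_mem_cancel_right Z htZ]; exact hx
    set t₃ := α₀ (x₀ + ζ) - α₀ x₀ with ht₃
    have ht₃Z : t₃ ∉ Z := by
      intro h3
      apply hζ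
      have h4 : x₀ + ζ - x₀ ∈ Z := (h.inv α₀ hα₀ _ _).2 h3
      rwa [add_sub_cancel_left] at h4
    have h3 : t ∈ lrad (GG f) Z t₃ := by
      refine ⟨htZ, fun T hT u hu => hmain2 T hT u ?_ ?_⟩
      · intro hu2
        apply ht₃Z
        have := Z.sub_mem hu2 hu
        rwa [sub_sub_cancel] at this
      · intro hu2
        apply hx₀
        have := Z.sub_mem hu2 hu
        convert this using 1; ring
    have h4 := lrad_card h.inv hα₀ x₀ (x₀ + ζ)
    rw [add_sub_cancel_left, ← ht₃] at h4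
    have h5 : t ∈ lrad (GG f) Z ζ := by
      apply mem_of_card_nsmul
      rw [← h4]
      exact card_nsmul_of_mem h3
    refine ⟨htZ, fun T hT z hz => ?_⟩
    by_cases hzζ : z - ζ ∈ Z
    · exact h5.2 T hT z hzζ
    · exact hmain2 T hT z hz hzζ
  have htζ : t - ζ ∈ Z := by
    rcases half_or ht2Z hζ2 hζ with h3 | h3
    · exact absurd h3 htZ
    · exact h3
  refine ⟨t, htZ, htζ, fun T hT x hx hxt => ?_⟩
  apply hmain T hT x hx
  · intro h2
    rcases half_or h2 ht2Z htZ with h3 | h3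
    · exact hx h3
    · exact hxt h3
  · intro h2
    apply hxt
    have := Z.sub_mem h2 ht2Z
    convert this using 1; ring

end ZZ

/-- translations by t preserve all invariant sets away from Z -/
def Sw (f : ZMod n → ZMod 2) (Z : AddSubgroup (ZMod n)) (t : ZMod n) : Prop :=
  ∀ T, IsInv (GG f) T → ∀ x, x ∉ Z → x - t ∉ Z → (x ∈ T ↔ x - t ∈ T)

lemma Sw.neg {Z : AddSubgroup (ZMod n)} {t : ZMod n} (ht : Sw f Z t) : Sw f Z (-t) := by
  intro T hT x hx hxt
  have h1 := ht T hT (x - -t) hxt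
  rw [sub_neg_eq_add, add_sub_cancel_right] at h1
  rw [sub_neg_eq_add]
  exact (h1 hx).symm

lemma Sw.tr {Z : AddSubgroup (ZMod n)} (hZ : IsInv (GG f) (Z : Set (ZMod n)))
    {g : Equiv.Perm (ZMod n)} (hg : g ∈ GG f) {x y : ZMod n}
    (ht : Sw f Z (y - x)) : Sw f Z (g y - g x) := by
  intro T hT z hz hzt
  obtain ⟨v, hv⟩ : ∃ v, g v = g y - z := ⟨g⁻¹ (g y - z), by simp⟩
  have e1 : z = g y - g v := by rw [hv]; ring
  have e2 : z - (g y - g x) = g x - g v := by rw [hv]; ring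
  rw [e2] at hzt
  rw [e2]
  rw [e1] at hz ⊢
  have a1 : y - v ∉ Z := fun h => hz ((hZ g hg v y).1 h)
  have a2 : x - v ∉ Z := fun h => hzt ((hZ g hg v x).1 h)
  have b1 : y - v ∈ T ↔ g y - g v ∈ T := hT g hg v y
  have b2 : x - v ∈ T ↔ g x - g v ∈ T := hT g hg v x
  rw [← b1, ← b2]
  have e3 : x - v = y - v - (y - x) := by ring
  rw [e3]
  apply ht T hT _ a1
  rw [← e3]; exact a2

lemma Sw.add {Z : AddSubgroup (ZMod n)} {t₁ t₂ : ZMod n} (h₁ : Sw f Z t₁) (h₂ : Sw f Z t₂)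
    (hex : ∀ x, ∃ s, Sw f Z s ∧ s ∉ Z ∧ x + s ∉ Z ∧ s - x ∉ Z) : Sw f Z (t₁ + t₂) := by
  intro T hT x hx hxt
  have e0 : x - (t₁ + t₂) = x - t₁ - t₂ := by ring
  rw [e0] at hxt ⊢
  by_cases c1 : x - t₁ ∈ Z
  · by_cases c2 : x - t₂ ∈ Z
    · obtain ⟨s, hs, hsZ, hxs, hsx⟩ := hex x
      -- x → x + s
      have s1 := hs.neg T hT x hx (by rw [sub_neg_eq_add]; exact hxs)
      rw [sub_neg_eq_add] at s1
      -- x + s → x + s - t₁
      have m2 : x + s - t₁ ∉ Z := by
        intro hm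
        apply hsZ
        have := Z.sub_mem hm c1
        convert this using 1; ring
      have s2 := h₁ T hT (x + s) hxs m2
      -- → x + s - t₁ - t₂
      have m3 : x + s - t₁ - t₂ ∉ Z := by
        intro hm
        apply hsx
        have := Z.sub_mem (Z.sub_mem hm c1) c2
        convert this using 1; ring
      have s3 := h₂ T hT (x + s - t₁) m2 m3
      have e1 : x + s - t₁ - t₂ - s = x - t₁ - t₂ := by ring
      have s4 := hs T hT (x + s - t₁ - t₂) m3 (by rw [e1]; exact hxt)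
      rw [e1] at s4
      rw [s1, s2, s3, s4]
    · have s1 := h₂ T hT x hx c2
      have e1 : x - t₂ - t₁ = x - t₁ - t₂ := by ring
      have s2 := h₁ T hT (x - t₂) c2 (by rw [e1]; exact hxt)
      rw [e1] at s2
      rw [s1, s2]
  · have s1 := h₁ T hT x hx c1
    have s2 := h₂ T hT (x - t₁) c1 hxt
    rw [s1, s2]

namespace ZZ

variable {Z : AddSubgroup (ZMod n)} (h : ZZ f Z)

include h

/-- Case A: the involution modulo Z is not central. -/
lemma caseA {ζ : ZMod n} (hζ : ζ ∉ Z) (hζ2 : 2 * ζ ∈ Z) {α₀ : Equiv.Perm (ZMod n)}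
    (hα₀ : α₀ ∈ GG f) {x₀ : ZMod n} (hx₀ : α₀ (x₀ + ζ) - α₀ x₀ - ζ ∉ Z)
    {α β : Equiv.Perm (ZMod n)} (hT : TF f α β) : α = β := by
  classical
  obtain ⟨t, htZ, htζ, ht⟩ := h.exists_h hζ hζ2 hα₀ hx₀
  have ht2 : 2 * t ∈ Z := by
    have := Z.add_mem (Z.add_mem htζ htζ) hζ2
    convert this using 1; ring
  have hSt : Sw f Z t := by
    intro T hTi x hx hxt
    have h1 := ht T hTi (x - t) hxt (by
      intro h2
      apply hx
      have := Z.add_mem h2 ht2
      convert this using 1; ring)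
    rw [sub_add_cancel] at h1
    exact h1.symm
  set t₃ := α₀ (x₀ + t) - α₀ x₀ with ht₃
  have hSt₃ : Sw f Z t₃ := by
    apply Sw.tr h.inv hα₀
    rw [add_sub_cancel_left]; exact hSt
  have ht₃Z : t₃ ∉ Z := by
    intro h3
    apply htZ
    have h4 : x₀ + t - x₀ ∈ Z := (h.inv α₀ hα₀ _ _).2 h3
    rwa [add_sub_cancel_left] at h4
  have ht₃t : t₃ - t ∉ Z := by
    intro h3
    apply hx₀
    have h4 : α₀ (x₀ + ζ) - α₀ (x₀ + t) ∈ Z := by
      apply (h.inv α₀ hα₀ _ _).1
      have := Z.neg_mem htζ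
      change x₀ + ζ - (x₀ + t) ∈ Z
      convert this using 1; ring
    have := Z.add_mem (Z.add_mem h4 h3) htζ
    convert this using 1; rw [ht₃]; ring
  have hex : ∀ x, ∃ s, Sw f Z s ∧ s ∉ Z ∧ x + s ∉ Z ∧ s - x ∉ Z := by
    intro x
    by_cases hx : x - t ∈ Z
    · refine ⟨t₃, hSt₃, ht₃Z, ?_, ?_⟩
      · intro h3
        apply ht₃t
        have := Z.sub_mem (Z.sub_mem h3 hx) ht2
        convert this using 1; ring
      · intro h3
        apply ht₃t
        have := Z.add_mem h3 hx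
        convert this using 1; ring
    · refine ⟨t, hSt, htZ, ?_, ?_⟩
      · intro h3
        apply hx
        have := Z.sub_mem h3 ht2
        convert this using 1; ring
      · intro h3
        apply hx
        have := Z.neg_mem h3
        convert this using 1; ring
  let W' : AddSubgroup (ZMod n) :=
    { carrier := {t | Sw f Z t}
      zero_mem' := fun T _ x _ _ => by rw [sub_zero]
      add_mem' := fun ha hb => Sw.add ha hb hex
      neg_mem' := fun ha => Sw.neg ha }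
  have hW'inv : IsInv (GG f) (W' : Set (ZMod n)) := by
    apply isInv_of_imp
    intro g hg x y hxy
    exact Sw.tr h.inv hg hxy
  obtain ⟨ω, hω, hωp⟩ : ∃ ω ∈ W', par ω = 1 := by
    by_contra hcon
    push Not at hcon
    apply htZ
    apply h.max W' hW'inv _ hSt
    intro l hl
    rcases z2_cases (par l) with h1 | h1
    · exact h1
    · exact absurd h1 (hcon l hl)
  -- R ≤ Z
  have hRZ : ∀ r ∈ RR f, r ∈ Z := by
    intro r hr
    rcases half_or (h.two_RR hr) ht2 htZ with h1 | h1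
    · exact h1
    · exfalso
      have h2 : α₀ (x₀ + r) - α₀ x₀ ∈ RR f := by
        apply (h.inv_RR α₀ hα₀ _ _).1
        rw [add_sub_cancel_left]; exact hr
      have h3 : α₀ (x₀ + r) - α₀ (x₀ + t) ∈ Z := by
        apply (h.inv α₀ hα₀ _ _).1
        change x₀ + r - (x₀ + t) ∈ Z
        convert h1 using 1; ring
      rcases half_or (h.two_RR h2) ht2 htZ with h4 | h4
      · apply ht₃Z
        have := Z.sub_mem h4 h3
        convert this using 1; rw [ht₃]; ring
      · apply ht₃t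
        have := Z.sub_mem h4 h3
        convert this using 1; rw [ht₃]; ring
  have hioZ : (io : ZMod n) ∈ Z := hRZ _ (io_RR h.C.H)
  -- the quotient
  let X := ZMod n ⧸ Z
  have : Finite X := inferInstanceAs (Finite (ZMod n ⧸ Z))
  let W : AddSubgroup (ZMod n) := W' ⊔ Z
  have hmkZ : ∀ {x y : ZMod n}, (x : ZMod n ⧸ Z) = (y : ZMod n ⧸ Z) ↔ y - x ∈ Z := by
    intro x y
    rw [QuotientAddGroup.eq, neg_add_eq_sub]
  have hmkW : ∀ {x y : ZMod n}, (x : ZMod n ⧸ W) = (y : ZMod n ⧸ W) ↔ y - x ∈ W := by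
    intro x y
    rw [QuotientAddGroup.eq, neg_add_eq_sub]
  have hZW : Z ≤ W := le_sup_right
  have hW'W : W' ≤ W := le_sup_left
  let c : X → ZMod n ⧸ W := Quotient.lift (fun x : ZMod n => (x : ZMod n ⧸ W)) (by
    intro x y hxy
    have h1 : -x + y ∈ Z := QuotientAddGroup.leftRel_apply.1 hxy
    apply hmkW.2
    apply hZW
    rwa [neg_add_eq_sub] at h1)
  have hc : ∀ x : ZMod n, c (x : ZMod n ⧸ Z) = (x : ZMod n ⧸ W) := fun x => rfl
  let p₂ : X → ZMod 2 := Quotient.lift (fun x : ZMod n => par x) (by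
    intro x y hxy
    have h1 : -x + y ∈ Z := QuotientAddGroup.leftRel_apply.1 hxy
    rw [neg_add_eq_sub] at h1
    have h2 := h.ev _ h1
    rw [par_sub] at h2
    exact (z2_eq h2).symm)
  have hp₂ : ∀ x : ZMod n, p₂ (x : ZMod n ⧸ Z) = par x := fun x => rfl
  have hα : α ∈ GG f := ⟨β, hT⟩
  let p₁ : X → ZMod 2 := Quotient.lift (fun x : ZMod n => par (α⁻¹ x)) (by
    intro x y hxy
    have h1 : -x + y ∈ Z := QuotientAddGroup.leftRel_apply.1 hxy
    rw [neg_add_eq_sub] at h1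
    have h3 : α⁻¹ y - α⁻¹ x ∈ Z := (h.inv α⁻¹ ((GG f).inv_mem hα) _ _).1 h1
    have h2 := h.ev _ h3
    rw [par_sub] at h2
    exact (z2_eq h2).symm)
  have hp₁ : ∀ x : ZMod n, p₁ (x : ZMod n ⧸ Z) = par (α⁻¹ x) := fun x => rfl
  -- the bijections
  let φ₂ : Equiv.Perm X := Equiv.addRight (ω : ZMod n ⧸ Z)
  have hφ₂ : ∀ x : ZMod n, φ₂ (x : ZMod n ⧸ Z) = ((x + ω : ZMod n) : ZMod n ⧸ Z) := fun x => rfl
  have hpresφ : Pres (α * Equiv.addRight ω * α⁻¹) (Z : Set (ZMod n)) := by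
    have h1 : α * Equiv.addRight ω * α⁻¹ ∈ GG f := by
      refine (GG f).mul_mem ((GG f).mul_mem hα ?_) ((GG f).inv_mem hα)
      refine ⟨Equiv.addRight ω, ?_⟩
      intro u v
      change f (v + ω - (u + ω)) = f (v - u)
      congr 1; ring
    exact h.inv _ h1
  obtain ⟨φ₁, hφ₁⟩ := exists_quot_perm hpresφ
  have hφ₁' : ∀ x : ZMod n, φ₁ (x : ZMod n ⧸ Z) = ((α (α⁻¹ x + ω) : ZMod n) : ZMod n ⧸ Z) :=
    fun x => hφ₁ x
  obtain ⟨e, he⟩ := exists_match c p₁ p₂ φ₁ φ₂ (by
      intro x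
      induction x using QuotientAddGroup.induction_on with
      | H x =>
        rw [hφ₁', hc, hc, hmkW]
        apply hW'W
        have h1 : (α⁻¹ x + ω) - α⁻¹ x ∈ W' := by rw [add_sub_cancel_left]; exact hω
        have h2 : α (α⁻¹ x + ω) - α (α⁻¹ x) ∈ W' := (hW'inv α hα _ _).1 h1
        have h3 : α (α⁻¹ x) = x := by simp
        rw [h3] at h2
        have := W'.neg_mem h2
        rwa [neg_sub] at this) (by
      intro x
      induction x using QuotientAddGroup.induction_on with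
      | H x =>
        rw [hφ₁', hp₁, hp₁]
        have h3 : α⁻¹ (α (α⁻¹ x + ω)) = α⁻¹ x + ω := by simp
        rw [h3, map_add, hωp]) (by
      intro x
      induction x using QuotientAddGroup.induction_on with
      | H x =>
        rw [hφ₂, hc, hc, hmkW]
        apply hW'W
        have := W'.neg_mem hω
        convert this using 1; ring) (by
      intro x
      induction x using QuotientAddGroup.induction_on with
      | H x =>
        rw [hφ₂, hp₂, hp₂, map_add, hωp])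
  -- the correction
  have hw : ∀ X₀ : X, ∃ w ∈ W', ∀ x : ZMod n, (x : ZMod n ⧸ Z) = X₀ →
      ((x + w : ZMod n) : ZMod n ⧸ Z) = e X₀ := by
    intro X₀
    induction X₀ using QuotientAddGroup.induction_on with
    | H x =>
      obtain ⟨y, hy⟩ := QuotientAddGroup.mk_surjective (e (x : ZMod n ⧸ Z))
      have h1 := (he (x : ZMod n ⧸ Z)).1
      rw [← hy, hc, hc, hmkW] at h1
      obtain ⟨w, hw, z, hz, hwz⟩ := AddSubgroup.mem_sup.1 h1
      refine ⟨-w, W'.neg_mem hw, ?_⟩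
      intro x' hx'
      rw [← hy, hmkZ]
      rw [hmkZ] at hx'
      have h2 := Z.sub_mem hx' hz
      convert h2 using 1
      linear_combination hwz
  choose q hqW hq using hw
  let q' : ZMod n → ZMod n := fun x => q (x : ZMod n ⧸ Z)
  have hq' : ∀ x, q' x = q (x : ZMod n ⧸ Z) := fun x => rfl
  have hmk : ∀ x : ZMod n, ((x + q' x : ZMod n) : ZMod n ⧸ Z) = e (x : ZMod n ⧸ Z) :=
    fun x => hq _ x rfl
  have hqq : ∀ x y : ZMod n, y - x ∈ Z → q' y = q' x := by
    intro x y hxy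
    rw [hq', hq', hmkZ.2 hxy]
  have hinj : Function.Injective (fun x => x + q' x) := by
    intro x y hxy
    have hxy : x + q' x = y + q' y := hxy
    have h1 : e (x : ZMod n ⧸ Z) = e (y : ZMod n ⧸ Z) := by rw [← hmk, ← hmk, hxy]
    have h2 := e.injective h1
    rw [hmkZ] at h2
    rw [hqq x y h2] at hxy
    exact add_right_cancel hxy
  let γ := sp q' hinj
  have hγ : ∀ x, γ x = x + q' x := fun x => rfl
  have hγT : TF f γ γ := by
    intro x y
    rw [hγ, hγ]
    by_cases hxy : y - x ∈ Z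
    · rw [hqq x y hxy]; congr 1; ring
    · have hxy' : y + q' y - (x + q' x) ∉ Z := by
        intro h1
        apply hxy
        rw [← hmkZ]
        rw [← hmkZ, hmk, hmk] at h1
        exact e.injective h1
      have e1 : y + q' y - (x + q' x) = (y - x) - (q' x - q' y) := by ring
      have h1 : Sw f Z (q' x - q' y) := W'.sub_mem (hqW _) (hqW _)
      have h2 := h1 _ h.inv_T0 _ hxy (by rw [← e1]; exact hxy')
      rw [← e1] at h2
      have h3 : y - x ∉ RR f := fun h4 => hxy (hRZ _ h4)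
      have h5 : y + q' y - (x + q' x) ∉ RR f := fun h4 => hxy' (hRZ _ h4)
      apply z2_ext
      constructor
      · intro h6; exact (h2.2 ⟨h5, h6⟩).2
      · intro h6; exact (h2.1 ⟨h3, h6⟩).2
  have hpγ : ∀ x, par (x + q' x) = par (α⁻¹ x) := by
    intro x
    rw [← hp₂, hmk, (he _).2, hp₁]
  have hqα : ∀ x, par (α x + q' (α x)) = par x := by
    intro x
    rw [hpγ]
    have h1 : α⁻¹ (α x) = x := by simp
    rw [h1]
  have h1 := h.C.H.two (γ * α) (γ * β) (hγT.mul hT) (by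
    intro x
    rw [Equiv.Perm.mul_apply, hγ, hqα]) (by
    intro x
    rw [Equiv.Perm.mul_apply, hγ]
    rcases h.C.df α β hT x with h2 | h2
    · rw [h2, hqα]
    · rw [h2, hqq (α x) (α x + io) (by rw [add_sub_cancel_left]; exact hioZ)]
      have e2 : α x + io + q' (α x) = (α x + q' (α x)) + io := by ring
      rw [e2, map_add, par_io, add_zero, hqα])
  exact mul_left_cancel h1

end ZZ

end Pool.Agent.Helper589Four
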